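import Mathlib

/-!
Uniform `Σ⁰₂` predicates: primitive recursive matrices which are antitone in the universally
quantified variable.
-/

set_option autoImplicit false

namespace Pool.Agent.Q116.IC

open Encodable

section

variable {α β : Type} [Primcodable α] [Primcodable β]

theorem cp_comp {p : β → Prop} (hp : ComputablePred p) {f : α → β} (hf : Computable f) :
    ComputablePred fun a => p (f a) := by
  obtain ⟨g, hg, rfl⟩ := ComputablePred.computable_iff.1 hp
  exact ComputablePred.computable_iff.2 ⟨fun a => g (f a), hg.comp hf, rfl⟩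

/-- A universally quantified computable predicate has a primitive recursive matrix which is
antitone in the quantified variable. -/
theorem pi_form (R : α → ℕ → Prop) (hR : ComputablePred fun q : α × ℕ => R q.1 q.2) :
    ∃ P : α → ℕ → Prop, PrimrecPred (fun q : α × ℕ => P q.1 q.2) ∧
      (∀ x L L', L ≤ L' → P x L' → P x L) ∧ ∀ x, (∀ b, R x b) ↔ ∀ L, P x L := by
  classical
  have h1 : Computable₂ fun (x : α) (b : ℕ) => !(decide (R x b)) := by
    have := hR.decide
    exact (Primrec.not.to_comp.comp this).to₂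
  have h2 : Partrec fun x : α => Nat.rfind fun b => (Part.some (!(decide (R x b))) : Part Bool) :=
    Partrec.rfind h1.partrec₂
  obtain ⟨c, hc⟩ := Nat.Partrec.Code.exists_code.1 h2
  have h3 : ∀ x : α, (Nat.Partrec.Code.eval c (encode x)).Dom ↔ ∃ b, ¬ R x b := by
    intro x
    rw [hc]
    simp only [encodek, Part.coe_some, Part.bind_some, Part.map_Dom]
    refine Iff.trans (Nat.rfind_dom' (p := fun b => Part.some (!(decide (R x b))))) ?_
    constructor
    · rintro ⟨b, hb, -⟩
      refine ⟨b, ?_⟩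
      simpa using hb
    · rintro ⟨b, hb⟩
      exact ⟨b, by simpa using hb, fun _ => trivial⟩
  refine ⟨fun x L => Nat.Partrec.Code.evaln L c (encode x) = none, ?_, ?_, ?_⟩
  · refine Primrec.eq.comp ?_ (Primrec.const none)
    exact Nat.Partrec.Code.primrec_evaln.comp
      ((Primrec.snd.pair (Primrec.const c)).pair (Primrec.encode.comp Primrec.fst))
  · intro x L L' hL h
    rw [Option.eq_none_iff_forall_not_mem] at h ⊢
    intro y hy
    exact h y (Nat.Partrec.Code.evaln_mono hL hy)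
  · intro x
    have h4 : (∀ L, Nat.Partrec.Code.evaln L c (encode x) = none) ↔
        ¬ (Nat.Partrec.Code.eval c (encode x)).Dom := by
      constructor
      · intro h hd
        obtain ⟨y, hy⟩ := Part.dom_iff_mem.1 hd
        obtain ⟨k, hk⟩ := Nat.Partrec.Code.evaln_complete.1 hy
        rw [h k] at hk
        cases hk
      · intro h L
        rw [Option.eq_none_iff_forall_not_mem]
        intro y hy
        exact h (Part.dom_iff_mem.2 ⟨y, Nat.Partrec.Code.evaln_sound hy⟩)
    rw [h4, h3]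
    push Not
    rfl

/-- Uniform `Σ⁰₂` predicates. -/
def S2 (U : α → Prop) : Prop :=
  ∃ P : α → ℕ → ℕ → Prop, PrimrecPred (fun q : α × ℕ × ℕ => P q.1 q.2.1 q.2.2) ∧
    (∀ x a L L', L ≤ L' → P x a L' → P x a L) ∧ ∀ x, U x ↔ ∃ a, ∀ L, P x a L

theorem S2.of_computable {U : α → Prop} (R : α → ℕ → ℕ → Prop)
    (hR : ComputablePred fun q : α × ℕ × ℕ => R q.1 q.2.1 q.2.2)
    (h : ∀ x, U x ↔ ∃ a, ∀ b, R x a b) : S2 U := by
  have h0 : Computable fun q : (α × ℕ) × ℕ => (q.1.1, q.1.2, q.2) :=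
    (Computable.fst.comp Computable.fst).pair
      ((Computable.snd.comp Computable.fst).pair Computable.snd)
  have hR' : ComputablePred fun q : (α × ℕ) × ℕ => R q.1.1 q.1.2 q.2 := cp_comp hR h0
  obtain ⟨P, h1, h2, h3⟩ := pi_form (fun y : α × ℕ => R y.1 y.2) hR'
  refine ⟨fun x a L => P (x, a) L, ?_, fun x a => h2 (x, a), fun x => ?_⟩
  · exact h1.comp ((Primrec.fst.pair (Primrec.fst.comp Primrec.snd)).pair
      (Primrec.snd.comp Primrec.snd))
  · rw [h x]
    exact exists_congr fun a => h3 (x, a)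

theorem S2.comp {U : α → Prop} (h : S2 U) {f : β → α} (hf : Primrec f) : S2 fun y => U (f y) := by
  obtain ⟨P, h1, h2, h3⟩ := h
  exact ⟨fun y => P (f y), h1.comp ((hf.comp Primrec.fst).pair Primrec.snd),
    fun y => h2 (f y), fun y => h3 (f y)⟩

theorem S2.of_eq {U V : α → Prop} (h : S2 U) (hUV : ∀ x, U x ↔ V x) : S2 V := by
  obtain ⟨P, h1, h2, h3⟩ := h
  exact ⟨P, h1, h2, fun x => (hUV x).symm.trans (h3 x)⟩

theorem S2.of_prim {U : α → Prop} (h : PrimrecPred U) : S2 U :=
  ⟨fun x _ _ => U x, h.comp Primrec.fst, fun _ _ _ _ _ h => h, fun x => by simp⟩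

theorem S2.of_sigma {U : α → Prop} (P : α → ℕ → Prop) (hP : PrimrecPred fun q : α × ℕ => P q.1 q.2)
    (h : ∀ x, U x ↔ ∃ a, P x a) : S2 U :=
  ⟨fun x a _ => P x a, hP.comp (Primrec.fst.pair (Primrec.fst.comp Primrec.snd)),
    fun _ _ _ _ _ h => h, fun x => by rw [h x]; simp⟩

theorem S2.or {U V : α → Prop} (hU : S2 U) (hV : S2 V) : S2 fun x => U x ∨ V x := by
  obtain ⟨P, h1, h2, h3⟩ := hU
  obtain ⟨P', h1', h2', h3'⟩ := hV
  refine ⟨fun x a L => P x a L ∨ P' x a L, h1.or h1', fun x a L L' hL h => ?_, fun x => ?_⟩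
  · rcases h with h | h
    · exact Or.inl (h2 x a L L' hL h)
    · exact Or.inr (h2' x a L L' hL h)
  · simp only [h3, h3']
    constructor
    · rintro (⟨a, ha⟩ | ⟨a, ha⟩)
      · exact ⟨a, fun L => Or.inl (ha L)⟩
      · exact ⟨a, fun L => Or.inr (ha L)⟩
    · rintro ⟨a, ha⟩
      by_cases hc : ∀ L, P x a L
      · exact Or.inl ⟨a, hc⟩
      · push Not at hc
        obtain ⟨L₀, hL₀⟩ := hc
        refine Or.inr ⟨a, fun L => ?_⟩
        rcases ha (max L L₀) with h | h
        · exact absurd (h2 x a _ _ (le_max_right _ _) h) hL₀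
        · exact h2' x a _ _ (le_max_left _ _) h

theorem S2.and {U V : α → Prop} (hU : S2 U) (hV : S2 V) : S2 fun x => U x ∧ V x := by
  obtain ⟨P, h1, h2, h3⟩ := hU
  obtain ⟨P', h1', h2', h3'⟩ := hV
  refine ⟨fun x a L => P x a.unpair.1 L ∧ P' x a.unpair.2 L, ?_, fun x a L L' hL h => ?_,
    fun x => ?_⟩
  · have ha : Primrec fun q : α × ℕ × ℕ => q.2.1.unpair :=
      Primrec.unpair.comp (Primrec.fst.comp Primrec.snd)
    exact PrimrecPred.and
      (h1.comp (Primrec.fst.pair ((Primrec.fst.comp ha).pair (Primrec.snd.comp Primrec.snd))))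
      (h1'.comp (Primrec.fst.pair ((Primrec.snd.comp ha).pair (Primrec.snd.comp Primrec.snd))))
  · exact ⟨h2 _ _ _ _ hL h.1, h2' _ _ _ _ hL h.2⟩
  · simp only [h3, h3']
    constructor
    · rintro ⟨⟨a, ha⟩, ⟨b, hb⟩⟩
      refine ⟨Nat.pair a b, fun L => ?_⟩
      simp only [Nat.unpair_pair]
      exact ⟨ha L, hb L⟩
    · rintro ⟨a, ha⟩
      exact ⟨⟨_, fun L => (ha L).1⟩, ⟨_, fun L => (ha L).2⟩⟩

theorem S2.exists {U : α × ℕ → Prop} (hU : S2 U) : S2 fun x => ∃ m, U (x, m) := by
  obtain ⟨P, h1, h2, h3⟩ := hU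
  refine ⟨fun x a L => P (x, a.unpair.1) a.unpair.2 L, ?_, fun x a L L' hL h => ?_, fun x => ?_⟩
  · have ha : Primrec fun q : α × ℕ × ℕ => q.2.1.unpair :=
      Primrec.unpair.comp (Primrec.fst.comp Primrec.snd)
    exact h1.comp ((Primrec.fst.pair (Primrec.fst.comp ha)).pair
      ((Primrec.snd.comp ha).pair (Primrec.snd.comp Primrec.snd)))
  · exact h2 _ _ _ _ hL h
  · constructor
    · rintro ⟨m, hm⟩
      obtain ⟨a, ha⟩ := (h3 _).1 hm
      refine ⟨Nat.pair m a, fun L => ?_⟩
      simp only [Nat.unpair_pair]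
      exact ha L
    · rintro ⟨a, ha⟩
      exact ⟨a.unpair.1, (h3 _).2 ⟨a.unpair.2, ha⟩⟩

/-- The entry with number `c` of the list with the code `a`. -/
def entry (a c : ℕ) : ℕ := ((decode a : Option (List ℕ)).getD []).getD c 0

theorem entry_prim : Primrec₂ entry := by
  refine (Primrec.list_getD 0).comp₂ ?_ Primrec₂.right
  exact (Primrec.option_getD.comp (Primrec.decode.comp Primrec.fst) (Primrec.const [])).to₂

theorem entry_encode (l : List ℕ) (c : ℕ) : entry (encode l) c = l.getD c 0 := by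
  simp [entry]

/-- Bounded universal quantifiers. -/
theorem S2.ball {U : α × ℕ → Prop} (hU : S2 U) {f : α → ℕ} (hf : Primrec f) :
    S2 fun x => ∀ c < f x, U (x, c) := by
  obtain ⟨P, h1, h2, h3⟩ := hU
  refine ⟨fun x a L => ∀ c < f x, P (x, c) (entry a c) L, ?_, fun x a L L' hL h c hc =>
    h2 _ _ _ _ hL (h c hc), fun x => ?_⟩
  · have h4 : PrimrecRel fun (c : ℕ) (q : α × ℕ × ℕ) => P (q.1, c) (entry q.2.1 c) q.2.2 := by
      refine h1.comp (((Primrec.fst.comp Primrec.snd).pair Primrec.fst).pair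
        ((entry_prim.comp (Primrec.fst.comp (Primrec.snd.comp Primrec.snd)) Primrec.fst).pair
          (Primrec.snd.comp (Primrec.snd.comp Primrec.snd))))
    have h5 : PrimrecRel fun (l : List ℕ) (q : α × ℕ × ℕ) =>
        ∀ c ∈ l, P (q.1, c) (entry q.2.1 c) q.2.2 := h4.forall_mem_list
    refine (h5.comp (Primrec.list_range.comp (hf.comp Primrec.fst)) Primrec.id).of_eq fun q => ?_
    simp
  · constructor
    · intro h
      have h4 : ∀ c, ∃ a, c < f x → ∀ L, P (x, c) a L := by
        intro c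
        by_cases hc : c < f x
        · obtain ⟨a, ha⟩ := (h3 _).1 (h c hc)
          exact ⟨a, fun _ => ha⟩
        · exact ⟨0, fun h => absurd h hc⟩
      choose g hg using h4
      refine ⟨encode ((List.range (f x)).map g), fun L c hc => ?_⟩
      rw [entry_encode, List.getD_eq_getElem?_getD]
      simp only [List.getElem?_map, List.getElem?_range hc, Option.map_some, Option.getD_some]
      exact hg c hc L
    · rintro ⟨a, ha⟩ c hc
      exact (h3 _).2 ⟨_, fun L => ha L c hc⟩

end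

/-- `Σ⁰₁` sets of natural numbers. -/
def Sigma1 (A : Set ℕ) : Prop :=
  ∃ R : ℕ → ℕ → Prop, ComputablePred (fun q : ℕ × ℕ => R q.1 q.2) ∧ ∀ n, n ∈ A ↔ ∃ a, R n a

/-- `Σ⁰₂` sets of natural numbers. -/
def Sigma2 (A : Set ℕ) : Prop :=
  ∃ R : ℕ → ℕ → ℕ → Prop, ComputablePred (fun q : ℕ × ℕ × ℕ => R q.1 q.2.1 q.2.2) ∧
    ∀ n, n ∈ A ↔ ∃ a, ∀ b, R n a b

/-- `Σ⁰₃` sets of natural numbers. -/
def Sigma3 (A : Set ℕ) : Prop :=
  ∃ R : ℕ → ℕ → ℕ → ℕ → Prop,
    ComputablePred (fun q : ℕ × ℕ × ℕ × ℕ => R q.1 q.2.1 q.2.2.1 q.2.2.2) ∧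
    ∀ n, n ∈ A ↔ ∃ a, ∀ b, ∃ c, R n a b c

/-- The level `k` of the difference hierarchy over the `Σ⁰₂` sets: there are `Σ⁰₂` sets
`B 0 ⊇ B 1 ⊇ … ⊇ B (k - 1)` such that `A` consists of the numbers which are in an odd number of
them, so `A = (B 0 \ B 1) ∪ (B 2 \ B 3) ∪ …`. -/
def Diff (k : ℕ) (A : Set ℕ) : Prop :=
  ∃ R : ℕ → ℕ → ℕ → ℕ → Prop,
    ComputablePred (fun q : ℕ × ℕ × ℕ × ℕ => R q.1 q.2.1 q.2.2.1 q.2.2.2) ∧
    (∀ i n, i + 1 < k → (∃ a, ∀ b, R (i + 1) n a b) → ∃ a, ∀ b, R i n a b) ∧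
    ∀ n, n ∈ A ↔ Odd {i | i < k ∧ ∃ a, ∀ b, R i n a b}.ncard

/-- The complements of the sets of the level `k` of the difference hierarchy. -/
def CoDiff (k : ℕ) (A : Set ℕ) : Prop := Diff k Aᶜ

/-- `A` is complete for the class `Γ` with respect to many-one reducibility. -/
def Complete (Γ : Set ℕ → Prop) (A : Set ℕ) : Prop :=
  Γ A ∧ ∀ B, Γ B → ∃ g : ℕ → ℕ, Computable g ∧ ∀ n, n ∈ B ↔ g n ∈ A

theorem Sigma2.s2 {A : Set ℕ} (h : Sigma2 A) : S2 fun n => n ∈ A := by
  obtain ⟨R, h1, h2⟩ := h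
  exact S2.of_computable R h1 h2

/-- An effective enumeration of the primitive recursive functions from the finite sequences of
natural numbers to `{0, 1}`, that is `{false, true}`: the function `(e, σ) ↦ π e σ` is computable,
all `π e` are primitive recursive, and from an argument `n` of a primitive recursive function `F`
of two arguments one can compute an index of `F n`. -/
structure Enumeration where
  /-- the function with the index `e` -/
  π : ℕ → List ℕ → Bool
  comp : Computable₂ π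
  prim : ∀ e, Primrec (π e)
  smn : ∀ F : ℕ → List ℕ → Bool, Primrec₂ F → ∃ g : ℕ → ℕ, Computable g ∧ ∀ n, π (g n) = F n

/-- The initial segment of length `n` of `x`, as a sequence of natural numbers. -/
def ini (x : ℕ → Bool) (n : ℕ) : List ℕ := (List.range n).map fun k => (x k).toNat

/-- The set `P_e ∩ 2^ω` of the infinite paths `x ∈ 2^ω` through the tree of all `σ` such that
`π e τ = 1` for all initial segments `τ` of `σ`. -/
def Enumeration.Q (E : Enumeration) (e : ℕ) : Set (ℕ → Bool) := {x | ∀ n, E.π e (ini x n) = true}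

/-- The index set `I_C`. -/
def Enumeration.I (E : Enumeration) (C : Set ℕ) : Set ℕ :=
  {e | (E.Q e).Finite ∧ (E.Q e).ncard ∈ C}

theorem ini_eq {x y : ℕ → Bool} {n : ℕ} : ini x n = ini y n ↔ ∀ k < n, x k = y k := by
  unfold ini
  rw [List.map_inj_left]
  simp only [List.mem_range]
  refine forall_congr' fun k => forall_congr' fun _ => ?_
  constructor
  · intro h
    cases hx : x k <;> cases hy : y k <;> simp_all
  · intro h
    rw [h]

theorem ini_length (x : ℕ → Bool) (n : ℕ) : (ini x n).length = n := by simp [ini]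

theorem ini_getD (x : ℕ → Bool) {n k : ℕ} (h : k < n) : (ini x n).getD k 0 = (x k).toNat := by
  unfold ini
  rw [List.getD_eq_getElem?_getD]
  simp only [List.getElem?_map, List.getElem?_range h, Option.map_some, Option.getD_some]

end Pool.Agent.Q116.IC
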