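import Pool.Agent.Q116.IC.Ext

/-!
The many-one degree of `I_C` for every `C`, and a `Δ⁰₃` set `C` for which `I_C` is not complete.
-/

set_option autoImplicit false

namespace Pool.Agent.Q116.IC

open Encodable Classical

/-- The `e`-th `Σ⁰₂` set: all `m` such that for some `a` the partial computable function with the
index `e` is not defined at the pair of `m` and `a`. -/
def V (e : ℕ) : Set ℕ :=
  {m | ∃ a, ¬ (Nat.Partrec.Code.eval (Denumerable.ofNat Nat.Partrec.Code e) (Nat.pair m a)).Dom}

theorem not_dom_iff (c : Nat.Partrec.Code) (x : ℕ) : ¬ (Nat.Partrec.Code.eval c x).Dom ↔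
    ∀ L, Nat.Partrec.Code.evaln L c x = none := by
  constructor
  · intro h L
    rw [Option.eq_none_iff_forall_not_mem]
    intro y hy
    exact h (Part.dom_iff_mem.2 ⟨y, Nat.Partrec.Code.evaln_sound hy⟩)
  · intro h hd
    obtain ⟨y, hy⟩ := Part.dom_iff_mem.1 hd
    obtain ⟨k, hk⟩ := Nat.Partrec.Code.evaln_complete.1 hy
    rw [h k] at hk
    cases hk

theorem V_s2 : S2 fun x : ℕ × ℕ => x.2 ∈ V x.1 := by
  refine ⟨fun x a L => Nat.Partrec.Code.evaln L (Denumerable.ofNat Nat.Partrec.Code x.1)
    (Nat.pair x.2 a) = none, ?_, ?_, ?_⟩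
  · refine Primrec.eq.comp ?_ (Primrec.const none)
    refine Nat.Partrec.Code.primrec_evaln.comp
      (((Primrec.snd.comp Primrec.snd).pair ((Primrec.ofNat _).comp
        (Primrec.fst.comp Primrec.fst))).pair ?_)
    exact Primrec₂.natPair.comp (Primrec.snd.comp Primrec.fst) (Primrec.fst.comp Primrec.snd)
  · intro x a L L' hL h
    rw [Option.eq_none_iff_forall_not_mem] at h ⊢
    intro y hy
    exact h y (Nat.Partrec.Code.evaln_mono hL hy)
  · intro x
    exact exists_congr fun a => not_dom_iff _ _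

theorem V_index {U : ℕ × ℕ → Prop} (hU : S2 U) :
    ∃ f : ℕ → ℕ, Computable f ∧ ∀ n m, m ∈ V (f n) ↔ U (n, m) := by
  obtain ⟨P, h1, -, h3⟩ := hU
  have hx : Primrec fun y : ℕ × ℕ => y.1.unpair := Primrec.unpair.comp Primrec.fst
  have hx2 : Primrec fun y : ℕ × ℕ => y.1.unpair.2.unpair :=
    Primrec.unpair.comp (Primrec.snd.comp hx)
  have h4 : PrimrecPred fun y : ℕ × ℕ =>
      P (y.1.unpair.1, y.1.unpair.2.unpair.1) y.1.unpair.2.unpair.2 y.2 :=
    h1.comp (((Primrec.fst.comp hx).pair (Primrec.fst.comp hx2)).pair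
      ((Primrec.snd.comp hx2).pair Primrec.snd))
  have h5 : Computable₂ fun (x L : ℕ) =>
      !(decide (P (x.unpair.1, x.unpair.2.unpair.1) x.unpair.2.unpair.2 L)) :=
    (Primrec.not.comp h4.decide).to_comp.to₂
  have h2 : Partrec fun x : ℕ => Nat.rfind fun L =>
      (Part.some (!(decide (P (x.unpair.1, x.unpair.2.unpair.1) x.unpair.2.unpair.2 L))) :
        Part Bool) := Partrec.rfind h5.partrec₂
  obtain ⟨c, hc⟩ := Nat.Partrec.Code.exists_code.1 h2
  refine ⟨fun n => encode (Nat.Partrec.Code.curry c n),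
    (Primrec.encode.comp (Nat.Partrec.Code.primrec₂_curry.comp (Primrec.const c)
      Primrec.id)).to_comp, fun n m => ?_⟩
  rw [h3]
  change (∃ a, ¬ (Nat.Partrec.Code.eval (Denumerable.ofNat Nat.Partrec.Code
    (encode (Nat.Partrec.Code.curry c n))) (Nat.pair m a)).Dom) ↔ _
  refine exists_congr fun a => ?_
  rw [Denumerable.ofNat_encode, Nat.Partrec.Code.eval_curry, hc]
  simp only [decode_nat, Part.coe_some, Part.bind_some, Part.map_Dom]
  rw [not_iff_comm]
  refine Iff.symm (Iff.trans (Nat.rfind_dom' (p := fun b => Part.some _)) ?_)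
  constructor
  · rintro ⟨L, hL, -⟩ h
    have := h L
    simp_all
  · intro h
    push Not at h
    obtain ⟨L, hL⟩ := h
    refine ⟨L, ?_, fun _ => trivial⟩
    simpa using hL

theorem many_one (E : Enumeration) {C : Set ℕ} (h0 : ¬ C ⊆ {0}) :
    ManyOneEquiv (fun e => e ∈ E.I C) (fun e => (V e).Finite ∧ (V e).ncard + 1 ∈ C) := by
  constructor
  · obtain ⟨c, hc, hc0⟩ := Set.not_subset.1 h0
    have hc1 : 1 ≤ c := Nat.one_le_iff_ne_zero.2 fun h => hc0 (by simpa using h)
    obtain ⟨R, hR, hR2⟩ := empty_sigma E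
    have hS : S2 fun x : ℕ × ℕ => ((x.2 + 2 : ℕ) : ℕ∞) ≤ (E.Q x.1).encard ∨
        (E.Q x.1 = ∅ ∧ (0 ∈ C → x.2 + 1 < c)) := by
      refine S2.or ((ge_s2 E).comp (f := fun x : ℕ × ℕ => (x.1, x.2 + 2)) ?_) (S2.and ?_ ?_)
      · exact Primrec.fst.pair (Primrec.succ.comp (Primrec.succ.comp Primrec.snd))
      · refine S2.of_sigma (fun x a => R x.1 a) ?_ fun x => hR2 x.1
        exact hR.comp ((Primrec.fst.comp Primrec.fst).pair Primrec.snd)
      · refine S2.of_prim ?_
        by_cases h : 0 ∈ C
        · refine (Primrec.nat_lt.comp (Primrec.succ.comp Primrec.snd)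
            (Primrec.const c)).of_eq fun x => ?_
          simp [h]
        · refine (PrimrecPred.of_eq (Primrec.eq.comp (Primrec.const 0) (Primrec.const 0))
            fun x => ?_)
          simp [h]
    obtain ⟨f, hf, hf2⟩ := V_index hS
    refine ⟨f, hf, fun e => ?_⟩
    have hV : V (f e) = {m | ((m + 2 : ℕ) : ℕ∞) ≤ (E.Q e).encard ∨
        (E.Q e = ∅ ∧ (0 ∈ C → m + 1 < c))} := by
      ext m
      exact hf2 e m
    by_cases he : E.Q e = ∅
    · by_cases h : 0 ∈ C
      · have hV' : V (f e) = {m | m < c - 1} := by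
          rw [hV]
          ext m
          simp only [he, h, Set.encard_empty, Set.mem_ofPred_eq, true_and, true_implies]
          constructor
          · rintro (h' | h')
            · simp at h'
            · omega
          · intro h'
            right
            omega
        have h1 : e ∈ E.I C := by
          unfold Enumeration.I
          simp [he, h]
        have h2 : (V (f e)).Finite ∧ (V (f e)).ncard + 1 ∈ C := by
          rw [hV', ncard_lt]
          refine ⟨Set.finite_lt_nat _, ?_⟩
          have : c - 1 + 1 = c := by omega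
          rwa [this]
        exact iff_of_true h1 h2
      · have hV' : V (f e) = Set.univ := by
          rw [hV]
          ext m
          simp [he, h]
        refine iff_of_false ?_ ?_
        · rintro ⟨-, h1⟩
          rw [he, Set.ncard_empty] at h1
          exact h h1
        · rintro ⟨h1, -⟩
          rw [hV'] at h1
          exact Set.infinite_univ h1
    · have hV' : V (f e) = {m | ((m + 2 : ℕ) : ℕ∞) ≤ (E.Q e).encard} := by
        rw [hV]
        ext m
        simp [he]
      by_cases hfin : (E.Q e).Finite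
      · have h1 : 1 ≤ (E.Q e).ncard :=
          Nat.one_le_iff_ne_zero.2 fun h => he ((Set.ncard_eq_zero hfin).1 h)
        have hV2 : V (f e) = {m | m < (E.Q e).ncard - 1} := by
          rw [hV']
          ext m
          simp only [Set.mem_ofPred_eq]
          rw [← hfin.cast_ncard_eq, Nat.cast_le]
          omega
        change ((E.Q e).Finite ∧ (E.Q e).ncard ∈ C) ↔ ((V (f e)).Finite ∧ (V (f e)).ncard + 1 ∈ C)
        rw [hV2, ncard_lt]
        have h3 : (E.Q e).ncard - 1 + 1 = (E.Q e).ncard := by omega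
        rw [h3]
        exact ⟨fun h => ⟨Set.finite_lt_nat _, h.2⟩, fun h => ⟨hfin, h.2⟩⟩
      · refine iff_of_false (fun h => hfin h.1) ?_
        rintro ⟨h1, -⟩
        have : V (f e) = Set.univ := by
          rw [hV', Set.Infinite.encard_eq hfin]
          ext m
          simp
        rw [this] at h1
        exact Set.infinite_univ h1
  · obtain ⟨g, hg, hg2⟩ := real_count E V_s2
    refine ⟨g, hg, fun n => ?_⟩
    have h1 : (E.Q (g n)).encard = (V n).encard + 1 := hg2 n
    have h2 : (E.Q (g n)).Finite ↔ (V n).Finite := by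
      rw [← Set.encard_ne_top_iff, ← Set.encard_ne_top_iff, h1]
      simp
    change ((V n).Finite ∧ (V n).ncard + 1 ∈ C) ↔ ((E.Q (g n)).Finite ∧ (E.Q (g n)).ncard ∈ C)
    by_cases hfin : (V n).Finite
    · have hfin' := h2.2 hfin
      rw [← hfin.cast_ncard_eq, ← hfin'.cast_ncard_eq] at h1
      have h3 : (E.Q (g n)).ncard = (V n).ncard + 1 := by exact_mod_cast h1
      rw [h3]
      simp [hfin, hfin']
    · simp [h2, hfin]

end Pool.Agent.Q116.IC
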