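import Pool.Agent.Q116.IC.Base

/-!
There is an effective enumeration of the primitive recursive functions.
-/

set_option autoImplicit false

namespace Pool.Agent.Q116.IC

open Encodable Nat.Partrec Nat.Partrec.Code

/-- The code with all searches replaced by the code of the zero function. -/
def strip (c : Code) : Code :=
  Nat.Partrec.Code.recOn c zero succ left right (fun _ _ a b => pair a b)
    (fun _ _ a b => comp a b) (fun _ _ a b => prec a b) (fun _ _ => zero)

theorem strip_prim : Primrec strip :=
  primrec_recOn (α := Code) (σ := Code) Primrec.id (Primrec.const zero) (Primrec.const succ)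
    (Primrec.const left) (Primrec.const right) (pr := fun _ _ _ a b => pair a b)
    (primrec₂_pair.comp (Primrec.fst.comp (Primrec.snd.comp (Primrec.snd.comp Primrec.snd)))
      (Primrec.snd.comp (Primrec.snd.comp (Primrec.snd.comp Primrec.snd))))
    (co := fun _ _ _ a b => comp a b)
    (primrec₂_comp.comp (Primrec.fst.comp (Primrec.snd.comp (Primrec.snd.comp Primrec.snd)))
      (Primrec.snd.comp (Primrec.snd.comp (Primrec.snd.comp Primrec.snd))))
    (pc := fun _ _ _ a b => prec a b)
    (primrec₂_prec.comp (Primrec.fst.comp (Primrec.snd.comp (Primrec.snd.comp Primrec.snd)))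
      (Primrec.snd.comp (Primrec.snd.comp (Primrec.snd.comp Primrec.snd))))
    (rf := fun _ _ _ => zero) (Primrec.const zero)

theorem strip_total (c : Code) : ∃ f : ℕ → ℕ, Nat.Primrec f ∧
    ∀ x, eval (strip c) x = Part.some (f x) := by
  induction c with
  | zero => exact ⟨_, Nat.Primrec.zero, fun _ => rfl⟩
  | succ => exact ⟨_, Nat.Primrec.succ, fun _ => rfl⟩
  | left => exact ⟨_, Nat.Primrec.left, fun _ => rfl⟩
  | right => exact ⟨_, Nat.Primrec.right, fun _ => rfl⟩
  | pair cf cg ihf ihg =>
    obtain ⟨f, hf, hf2⟩ := ihf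
    obtain ⟨g, hg, hg2⟩ := ihg
    refine ⟨_, hf.pair hg, fun x => ?_⟩
    change (Nat.pair <$> eval (strip cf) x <*> eval (strip cg) x) = _
    rw [hf2, hg2]
    simp [Seq.seq]
  | comp cf cg ihf ihg =>
    obtain ⟨f, hf, hf2⟩ := ihf
    obtain ⟨g, hg, hg2⟩ := ihg
    refine ⟨_, hf.comp hg, fun x => ?_⟩
    change (eval (strip cg) x >>= eval (strip cf)) = _
    rw [hg2]
    exact (Part.bind_some _ _).trans (hf2 _)
  | prec cf cg ihf ihg =>
    obtain ⟨f, hf, hf2⟩ := ihf
    obtain ⟨g, hg, hg2⟩ := ihg
    refine ⟨_, hf.prec hg, fun x => ?_⟩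
    rw [← Nat.pair_unpair x]
    change eval (prec (strip cf) (strip cg)) (Nat.pair x.unpair.1 x.unpair.2) = _
    simp only [Nat.unpaired, Nat.unpair_pair]
    induction x.unpair.2 with
    | zero =>
      rw [eval_prec_zero, hf2]
      rfl
    | succ n ih =>
      rw [eval_prec_succ, ih]
      change (Part.some _).bind _ = _
      rw [Part.bind_some, hg2]
  | rfind' cf _ => exact ⟨_, Nat.Primrec.zero, fun _ => rfl⟩

theorem exists_strip {f : ℕ → ℕ} (hf : Nat.Primrec f) :
    ∃ c : Code, strip c = c ∧ ∀ x, eval c x = Part.some (f x) := by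
  induction hf with
  | zero => exact ⟨zero, rfl, fun _ => rfl⟩
  | succ => exact ⟨succ, rfl, fun _ => rfl⟩
  | left => exact ⟨left, rfl, fun _ => rfl⟩
  | right => exact ⟨right, rfl, fun _ => rfl⟩
  | @pair f g _ _ ihf ihg =>
    obtain ⟨cf, hf, hf2⟩ := ihf
    obtain ⟨cg, hg, hg2⟩ := ihg
    refine ⟨pair cf cg, ?_, fun x => ?_⟩
    · change pair (strip cf) (strip cg) = _
      rw [hf, hg]
    · change (Nat.pair <$> eval cf x <*> eval cg x) = _
      rw [hf2, hg2]
      simp [Seq.seq]
  | @comp f g _ _ ihf ihg =>
    obtain ⟨cf, hf, hf2⟩ := ihf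
    obtain ⟨cg, hg, hg2⟩ := ihg
    refine ⟨comp cf cg, ?_, fun x => ?_⟩
    · change comp (strip cf) (strip cg) = _
      rw [hf, hg]
    · change (eval cg x >>= eval cf) = _
      rw [hg2]
      exact (Part.bind_some _ _).trans (hf2 _)
  | @prec f g _ _ ihf ihg =>
    obtain ⟨cf, hf, hf2⟩ := ihf
    obtain ⟨cg, hg, hg2⟩ := ihg
    refine ⟨prec cf cg, ?_, fun x => ?_⟩
    · change prec (strip cf) (strip cg) = _
      rw [hf, hg]
    · rw [← Nat.pair_unpair x]
      simp only [Nat.unpaired, Nat.unpair_pair]
      induction x.unpair.2 with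
      | zero =>
      rw [eval_prec_zero, hf2]
      rfl
      | succ n ih =>
        rw [eval_prec_succ, ih]
        change (Part.some _).bind _ = _
        rw [Part.bind_some, hg2]

theorem strip_const (n : ℕ) : strip (Code.const n) = Code.const n := by
  induction n with
  | zero => rfl
  | succ n ih =>
    change comp succ (strip (Code.const n)) = _
    rw [ih]
    rfl

theorem strip_curry {c : Code} (h : strip c = c) (n : ℕ) : strip (curry c n) = curry c n := by
  change comp (strip c) (pair (strip (Code.const n)) (pair left right)) = _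
  rw [h, strip_const]
  rfl

/-- The function computed by a code without searches. -/
noncomputable def value (c : Code) : ℕ → ℕ := (strip_total c).choose

theorem value_prim (c : Code) : Nat.Primrec (value c) := (strip_total c).choose_spec.1

theorem value_eval (c : Code) (x : ℕ) : eval (strip c) x = Part.some (value c x) :=
  (strip_total c).choose_spec.2 x

theorem enumeration_exists : Nonempty Enumeration := by
  classical
  have hval : Computable₂ fun (e : ℕ) (x : ℕ) => value (Denumerable.ofNat Code e) x := by
    have h1 : Partrec₂ fun (e : ℕ) (x : ℕ) => eval (strip (Denumerable.ofNat Code e)) x :=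
      eval_part.comp₂ ((strip_prim.comp (Primrec.ofNat Code)).to_comp.comp Computable.fst).to₂
        Computable.snd.to₂
    refine Partrec.of_eq h1 fun q => ?_
    exact value_eval _ _
  refine ⟨⟨fun e σ => decide (¬ value (Denumerable.ofNat Code e) (encode σ) = 0), ?_, ?_, ?_⟩⟩
  · have h2 : Primrec fun x : ℕ => decide (¬ x = 0) :=
      (PrimrecPred.not (Primrec.eq.comp Primrec.id (Primrec.const 0))).decide
    exact (h2.to_comp.comp (hval.comp Computable.fst
      (Computable.encode.comp Computable.snd))).to₂
  · intro e
    have h2 : Primrec fun x : ℕ => decide (¬ x = 0) :=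
      (PrimrecPred.not (Primrec.eq.comp Primrec.id (Primrec.const 0))).decide
    exact h2.comp ((Primrec.nat_iff.2 (value_prim _)).comp Primrec.encode)
  · intro F hF
    have hG : Primrec fun x : ℕ =>
        (F x.unpair.1 ((decode x.unpair.2 : Option (List ℕ)).getD [])).toNat := by
      have h3 : Primrec Bool.toNat := Primrec.dom_finite _
      exact h3.comp (hF.comp (Primrec.fst.comp Primrec.unpair)
        (Primrec.option_getD.comp (Primrec.decode.comp (Primrec.snd.comp Primrec.unpair))
          (Primrec.const [])))
    obtain ⟨c, hc, hc2⟩ := exists_strip (Primrec.nat_iff.1 hG)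
    refine ⟨fun n => encode (curry c n),
      (Primrec.encode.comp (primrec₂_curry.comp (Primrec.const c) Primrec.id)).to_comp,
      fun n => ?_⟩
    funext σ
    have h4 : value (curry c n) (encode σ) = (F n σ).toNat := by
      have h5 := value_eval (curry c n) (encode σ)
      rw [strip_curry hc, eval_curry, hc2] at h5
      simp only [Nat.unpair_pair, encodek, Option.getD_some, Part.some_inj] at h5
      exact h5.symm
    simp only [Denumerable.ofNat_encode, h4]
    cases F n σ <;> simp

end Pool.Agent.Q116.IC
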