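import Pool.Agent.Q116.IC.Main

/-!
Infinite `Σ⁰₂` sets, the many-one degree of `I_C` for every `C`, and a `Δ⁰₃` set `C` for which
`I_C` is not complete.
-/

set_option autoImplicit false

namespace Pool.Agent.Q116.IC

open Encodable Classical

theorem S2.sigma2 {A : Set ℕ} (h : S2 fun n => n ∈ A) : Sigma2 A := by
  obtain ⟨P, h1, -, h3⟩ := h
  exact ⟨P, pp_cp h1, h3⟩

theorem Sigma1.sigma2 {A : Set ℕ} (h : Sigma1 A) : Sigma2 A := by
  obtain ⟨R, h1, h2⟩ := h
  refine ⟨fun n a _ => R n a, cp_comp h1 (f := fun q : ℕ × ℕ × ℕ => (q.1, q.2.1)) ?_, fun n => ?_⟩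
  · exact Computable.fst.pair (Computable.fst.comp Computable.snd)
  · rw [h2 n]
    simp

theorem Sigma1.sigma2_of_compl {A : Set ℕ} (h : Sigma1 Aᶜ) : Sigma2 A := by
  obtain ⟨R, h1, h2⟩ := h
  refine ⟨fun n _ b => ¬ R n b, (cp_comp h1 (f := fun q : ℕ × ℕ × ℕ => (q.1, q.2.2)) ?_).not,
    fun n => ?_⟩
  · exact Computable.fst.pair (Computable.snd.comp Computable.snd)
  · have := h2 n
    rw [Set.mem_compl_iff] at this
    simp only [exists_const]
    rw [← not_exists, ← this, not_not]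

theorem Sigma2.sigma3 {A : Set ℕ} (h : Sigma2 A) : Sigma3 A := by
  obtain ⟨R, h1, h2⟩ := h
  refine ⟨fun n a b _ => R n a b,
    cp_comp h1 (f := fun q : ℕ × ℕ × ℕ × ℕ => (q.1, q.2.1, q.2.2.1)) ?_, fun n => ?_⟩
  · exact Computable.fst.pair ((Computable.fst.comp Computable.snd).pair
      (Computable.fst.comp (Computable.snd.comp Computable.snd)))
  · rw [h2 n]
    simp

theorem Sigma2.sigma3_of_compl {A : Set ℕ} (h : Sigma2 Aᶜ) : Sigma3 A := by
  obtain ⟨R, h1, h2⟩ := h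
  refine ⟨fun n _ b c => ¬ R n b c,
    (cp_comp h1 (f := fun q : ℕ × ℕ × ℕ × ℕ => (q.1, q.2.2.1, q.2.2.2)) ?_).not, fun n => ?_⟩
  · exact Computable.fst.pair ((Computable.fst.comp (Computable.snd.comp Computable.snd)).pair
      (Computable.snd.comp (Computable.snd.comp Computable.snd)))
  · have := h2 n
    rw [Set.mem_compl_iff] at this
    simp only [exists_const]
    constructor
    · intro h b
      by_contra hb
      push Not at hb
      exact this.2 ⟨b, hb⟩ h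
    · intro h
      by_contra hn
      obtain ⟨a, ha⟩ := this.1 hn
      obtain ⟨c, hc⟩ := h a
      exact hc (ha c)

theorem sigma3_of {A : Set ℕ} {U V : ℕ × ℕ → Prop} (hU : S2 U) (hV : S2 V)
    (h : ∀ x, x ∈ A ↔ ∃ t, U (x, t) ∧ ¬ V (x, t)) : Sigma3 A := by
  obtain ⟨P, h1, -, h3⟩ := hU
  obtain ⟨P', h1', -, h3'⟩ := hV
  refine ⟨fun x a b c => P (x, a.unpair.1) a.unpair.2 b ∧ ¬ P' (x, a.unpair.1) b c, pp_cp ?_,
    fun x => ?_⟩
  · have ha : Primrec fun q : ℕ × ℕ × ℕ × ℕ => q.2.1.unpair :=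
      Primrec.unpair.comp (Primrec.fst.comp Primrec.snd)
    have hb : Primrec fun q : ℕ × ℕ × ℕ × ℕ => q.2.2.1 :=
      Primrec.fst.comp (Primrec.snd.comp Primrec.snd)
    have hc : Primrec fun q : ℕ × ℕ × ℕ × ℕ => q.2.2.2 :=
      Primrec.snd.comp (Primrec.snd.comp Primrec.snd)
    refine PrimrecPred.and ?_ (PrimrecPred.not ?_)
    · exact h1.comp ((Primrec.fst.pair (Primrec.fst.comp ha)).pair
        ((Primrec.snd.comp ha).pair hb))
    · exact h1'.comp ((Primrec.fst.pair (Primrec.fst.comp ha)).pair (hb.pair hc))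
  · rw [h x]
    constructor
    · rintro ⟨t, ht, ht'⟩
      obtain ⟨a, ha⟩ := (h3 _).1 ht
      rw [h3'] at ht'
      push Not at ht'
      refine ⟨Nat.pair t a, fun b => ?_⟩
      obtain ⟨c, hc⟩ := ht' b
      simp only [Nat.unpair_pair]
      exact ⟨c, ha b, hc⟩
    · rintro ⟨a, ha⟩
      refine ⟨a.unpair.1, (h3 _).2 ⟨a.unpair.2, fun b => ?_⟩, ?_⟩
      · obtain ⟨c, hc, -⟩ := ha b
        exact hc
      · rw [h3']
        push Not
        intro b
        obtain ⟨c, -, hc⟩ := ha b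
        exact ⟨c, hc⟩

/-- An infinite `Σ⁰₂` set has an infinite subset which is `Π⁰₂`. -/
theorem infinite_sub {C : Set ℕ} (hC : Sigma2 C) (hinf : C.Infinite) :
    ∃ C₀ ⊆ C, C₀.Infinite ∧ Sigma2 C₀ᶜ := by
  obtain ⟨P, h1, h2, h3⟩ := hC.s2
  let T : ℕ → Prop := fun p => ∀ L, P p.unpair.1 p.unpair.2 L
  have hPp : PrimrecPred fun q : ℕ × ℕ × ℕ => P q.1.unpair.1 q.1.unpair.2 q.2.2 :=
    h1.comp ((Primrec.fst.comp (Primrec.unpair.comp Primrec.fst)).pair
      ((Primrec.snd.comp (Primrec.unpair.comp Primrec.fst)).pair (Primrec.snd.comp Primrec.snd)))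
  have hT : S2 T := by
    refine ⟨fun p _ L => P p.unpair.1 p.unpair.2 L, hPp, fun p a => h2 _ _, fun p => ?_⟩
    simp only [exists_const]
    exact Iff.rfl
  have hTn : S2 fun p => ¬ T p := by
    refine S2.of_sigma (fun p L => ¬ P p.unpair.1 p.unpair.2 L) (PrimrecPred.not ?_) fun p => ?_
    · exact h1.comp ((Primrec.fst.comp (Primrec.unpair.comp Primrec.fst)).pair
        ((Primrec.snd.comp (Primrec.unpair.comp Primrec.fst)).pair Primrec.snd))
    · simp only [T]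
      push Not
      rfl
  have hfst : Primrec fun p : ℕ => p.unpair.1 := Primrec.fst.comp Primrec.unpair
  have hmem : ∀ p, T p → p.unpair.1 ∈ C := fun p hp => (h3 _).2 ⟨_, hp⟩
  have hex : ∀ N, ∃ p, T p ∧ N < p.unpair.1 := by
    intro N
    obtain ⟨c, hc, hN⟩ := hinf.exists_gt N
    obtain ⟨a, ha⟩ := (h3 c).1 hc
    refine ⟨Nat.pair c a, ?_, by simpa using hN⟩
    intro L
    simp only [Nat.unpair_pair]
    exact ha L
  let C₀ : Set ℕ := {c | ∃ p, T p ∧ p.unpair.1 = c ∧ ∀ q < p, q.unpair.1 < c ∨ ¬ T q}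
  have hC₀ : ∀ c, c ∈ C₀ᶜ ↔ ∃ p, (T p ∧ c < p.unpair.1) ∧ ∀ q < p, q.unpair.1 < c ∨ ¬ T q := by
    intro c
    constructor
    · intro hc
      have hex' : ∃ p, T p ∧ c ≤ p.unpair.1 := (hex c).imp fun p hp => ⟨hp.1, hp.2.le⟩
      have hmin := Nat.find_spec hex'
      have hmin' : ∀ q < Nat.find hex', q.unpair.1 < c ∨ ¬ T q := by
        intro q hq
        have := Nat.find_min hex' hq
        by_contra hn
        push Not at hn
        exact this ⟨hn.2, hn.1⟩
      refine ⟨Nat.find hex', ⟨hmin.1, ?_⟩, hmin'⟩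
      refine lt_of_le_of_ne hmin.2 fun he => hc ⟨_, hmin.1, he.symm, hmin'⟩
    · rintro ⟨p, ⟨hp1, hp2⟩, hp3⟩ ⟨p', hp'1, hp'2, hp'3⟩
      rcases lt_trichotomy p p' with h | h | h
      · rcases hp'3 p h with h' | h'
        · omega
        · exact h' hp1
      · subst h
        omega
      · rcases hp3 p' h with h' | h'
        · omega
        · exact h' hp'1
  refine ⟨C₀, ?_, ?_, ?_⟩
  · rintro c ⟨p, hp, rfl, -⟩
    exact hmem p hp
  · refine Set.infinite_of_forall_exists_gt fun N => ?_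
    have hmin := Nat.find_spec (hex N)
    refine ⟨(Nat.find (hex N)).unpair.1, ⟨_, hmin.1, rfl, fun q hq => ?_⟩, hmin.2⟩
    have h4 := Nat.find_min (hex N) hq
    by_contra hn
    push Not at hn
    exact h4 ⟨hn.2, hmin.2.trans_le hn.1⟩
  · refine S2.sigma2 (S2.of_eq (U := fun c => ∃ p, (T p ∧ c < p.unpair.1) ∧
      ∀ q < p, q.unpair.1 < c ∨ ¬ T q) ?_ fun c => (hC₀ c).symm)
    refine S2.exists (U := fun x : ℕ × ℕ => (T x.2 ∧ x.1 < x.2.unpair.1) ∧
      ∀ q < x.2, q.unpair.1 < x.1 ∨ ¬ T q) ?_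
    refine S2.and (S2.and (hT.comp Primrec.snd) (S2.of_prim ?_)) ?_
    · exact Primrec.nat_lt.comp Primrec.fst (hfst.comp Primrec.snd)
    · refine S2.ball (U := fun x : (ℕ × ℕ) × ℕ => x.2.unpair.1 < x.1.1 ∨ ¬ T x.2) ?_ Primrec.snd
      refine S2.or (S2.of_prim ?_) (hTn.comp Primrec.snd)
      exact Primrec.nat_lt.comp (hfst.comp Primrec.snd) (Primrec.fst.comp Primrec.fst)

theorem complete_inf2 (E : Enumeration) {C : Set ℕ} (hinf : C.Infinite)
    (h : Sigma1 C ∨ Sigma1 Cᶜ ∨ Sigma2 C ∨ Sigma2 Cᶜ) : Complete Sigma3 (E.I C) := by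
  have h' : Sigma2 C ∨ Sigma2 Cᶜ := by
    rcases h with h | h | h | h
    · exact Or.inl h.sigma2
    · exact Or.inl h.sigma2_of_compl
    · exact Or.inl h
    · exact Or.inr h
  rcases h' with h | h
  · obtain ⟨C₀, hs, hi, hC₀⟩ := infinite_sub h hinf
    exact complete_inf E h.sigma3 hs hi hC₀
  · exact complete_inf E h.sigma3_of_compl subset_rfl hinf h

end Pool.Agent.Q116.IC
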