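import Pool.Agent.Q116.IC.Base

/-!
Trees with a prescribed number of infinite paths.
-/

set_option autoImplicit false

namespace Pool.Agent.Q116.IC

open Encodable

/-- The sequence with the only digit `1` at the position `m`. -/
def pt (m : ℕ) : ℕ → Bool := fun k => decide (k = m)

theorem pt_inj : Function.Injective pt := by
  intro m n h
  have := congrFun h m
  simpa [pt] using this

/-- The zero sequence and the sequences with one digit `1` at a position `m` with
`∀ L, V n m L`. -/
theorem real_points (E : Enumeration) (V : ℕ → ℕ → ℕ → Prop)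
    (hV : PrimrecPred fun q : ℕ × ℕ × ℕ => V q.1 q.2.1 q.2.2)
    (hmono : ∀ n m L L', L ≤ L' → V n m L' → V n m L) :
    ∃ g : ℕ → ℕ, Computable g ∧ ∀ n,
      E.Q (g n) = insert (fun _ => false) (pt '' {m | ∀ L, V n m L}) := by
  classical
  have h1 : PrimrecRel fun (j : ℕ) (q : ℕ × List ℕ) => q.2.getD j 0 = 1 → j = q.1 := by
    have hne : PrimrecRel fun (j : ℕ) (q : ℕ × List ℕ) => ¬ q.2.getD j 0 = 1 :=
      PrimrecPred.not (Primrec.eq.comp
        ((Primrec.list_getD 0).comp (Primrec.snd.comp Primrec.snd) Primrec.fst)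
        (Primrec.const 1))
    refine (PrimrecPred.or hne (Primrec.eq.comp Primrec.fst
      (Primrec.fst.comp Primrec.snd))).of_eq fun q => ?_
    tauto
  have h2 : PrimrecPred fun q : ℕ × List ℕ =>
      ∀ j ∈ List.range q.2.length, q.2.getD j 0 = 1 → j = q.1 :=
    h1.forall_mem_list.comp (Primrec.list_range.comp (Primrec.list_length.comp Primrec.snd))
      Primrec.id
  have h3 : PrimrecRel fun (i : ℕ) (q : ℕ × List ℕ) => q.2.getD i 0 = 1 →
      (V q.1 i q.2.length ∧ ∀ j ∈ List.range q.2.length, q.2.getD j 0 = 1 → j = i) := by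
    have hne : PrimrecRel fun (i : ℕ) (q : ℕ × List ℕ) => ¬ q.2.getD i 0 = 1 :=
      PrimrecPred.not (Primrec.eq.comp
        ((Primrec.list_getD 0).comp (Primrec.snd.comp Primrec.snd) Primrec.fst)
        (Primrec.const 1))
    have hv : PrimrecRel fun (i : ℕ) (q : ℕ × List ℕ) => V q.1 i q.2.length :=
      hV.comp ((Primrec.fst.comp Primrec.snd).pair (Primrec.fst.pair
        (Primrec.list_length.comp (Primrec.snd.comp Primrec.snd))))
    have h2' : PrimrecRel fun (i : ℕ) (q : ℕ × List ℕ) =>
        ∀ j ∈ List.range q.2.length, q.2.getD j 0 = 1 → j = i :=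
      h2.comp (Primrec.fst.pair (Primrec.snd.comp Primrec.snd))
    refine (PrimrecPred.or hne (PrimrecPred.and hv h2')).of_eq fun q => ?_
    tauto
  have h4 : PrimrecPred fun q : ℕ × List ℕ => ∀ i ∈ List.range q.2.length,
      q.2.getD i 0 = 1 → (V q.1 i q.2.length ∧
        ∀ j ∈ List.range q.2.length, q.2.getD j 0 = 1 → j = i) :=
    h3.forall_mem_list.comp (Primrec.list_range.comp (Primrec.list_length.comp Primrec.snd))
      Primrec.id
  obtain ⟨g, hg, hgF⟩ := E.smn (fun n σ => decide (∀ i ∈ List.range σ.length,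
      σ.getD i 0 = 1 → (V n i σ.length ∧
        ∀ j ∈ List.range σ.length, σ.getD j 0 = 1 → j = i))) h4.decide
  refine ⟨g, hg, fun n => ?_⟩
  have h5 : ∀ x : ℕ → Bool, x ∈ E.Q (g n) ↔ ∀ N, ∀ i < N, x i = true → (V n i N ∧
      ∀ j < N, x j = true → j = i) := by
    intro x
    change (∀ N, E.π (g n) (ini x N) = true) ↔ _
    refine forall_congr' fun N => ?_
    rw [hgF]
    simp only [decide_eq_true_eq, List.mem_range, ini_length]
    have h6 : ∀ i, i < N → ((ini x N).getD i 0 = 1 ↔ x i = true) := by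
      intro i hi
      rw [ini_getD x hi]
      cases x i <;> simp
    constructor
    · intro h i hi hx
      obtain ⟨h7, h8⟩ := h i hi ((h6 i hi).2 hx)
      exact ⟨h7, fun j hj hxj => h8 j hj ((h6 j hj).2 hxj)⟩
    · intro h i hi hx
      obtain ⟨h7, h8⟩ := h i hi ((h6 i hi).1 hx)
      exact ⟨h7, fun j hj hxj => h8 j hj ((h6 j hj).1 hxj)⟩
  ext x
  rw [h5]
  constructor
  · intro h
    by_cases hx : ∃ i, x i = true
    · obtain ⟨i, hi⟩ := hx
      refine Set.mem_insert_of_mem _ ⟨i, fun L => ?_, ?_⟩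
      · exact hmono n i L (max L (i + 1)) (le_max_left _ _)
          (h (max L (i + 1)) i (by omega) hi).1
      · funext k
        unfold pt
        by_cases hk : x k = true
        · have := (h (max i k + 1) i (by omega) hi).2 k (by omega) hk
          rw [hk, this]
          simp
        · have hne : k ≠ i := fun hki => hk (hki ▸ hi)
          simp only [Bool.not_eq_true] at hk
          rw [hk]
          simpa using hne
    · push Not at hx
      refine Set.mem_insert_iff.2 (Or.inl ?_)
      funext k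
      simpa using hx k
  · rintro (rfl | ⟨m, hm, rfl⟩) N i hi hx
    · simp at hx
    · simp only [pt, decide_eq_true_eq] at hx
      subst hx
      exact ⟨hm N, fun j _ hj => by simpa [pt] using hj⟩

/-- Every uniform sequence of `Σ⁰₂` events can be counted by the infinite paths. -/
theorem real_count (E : Enumeration) {U : ℕ × ℕ → Prop} (hU : S2 U) :
    ∃ g : ℕ → ℕ, Computable g ∧ ∀ n,
      (E.Q (g n)).encard = {j | U (n, j)}.encard + 1 := by
  classical
  obtain ⟨P, h1, h2, h3⟩ := hU
  -- the event number `j` with the witness `a` and the stage `s`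
  let V : ℕ → ℕ → ℕ → Prop := fun n m L =>
    P (n, m.unpair.1) m.unpair.2.unpair.1 L ∧
      (∀ a' ∈ List.range m.unpair.2.unpair.1, ¬ P (n, m.unpair.1) a' m.unpair.2.unpair.2) ∧
      (m.unpair.2.unpair.2 = 0 ∨ ∃ a' ∈ List.range m.unpair.2.unpair.1,
        P (n, m.unpair.1) a' (m.unpair.2.unpair.2 - 1))
  have hV : PrimrecPred fun q : ℕ × ℕ × ℕ => V q.1 q.2.1 q.2.2 := by
    have hm : Primrec fun q : ℕ × ℕ × ℕ => q.2.1.unpair :=
      Primrec.unpair.comp (Primrec.fst.comp Primrec.snd)
    have hm2 : Primrec fun q : ℕ × ℕ × ℕ => q.2.1.unpair.2.unpair :=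
      Primrec.unpair.comp (Primrec.snd.comp hm)
    have hP : PrimrecRel fun (a' : ℕ) (r : (ℕ × ℕ) × ℕ) => P r.1 a' r.2 :=
      h1.comp ((Primrec.fst.comp Primrec.snd).pair (Primrec.fst.pair
        (Primrec.snd.comp Primrec.snd)))
    have hr : ∀ {t : ℕ × ℕ × ℕ → ℕ}, Primrec t →
        Primrec fun q : ℕ × ℕ × ℕ => ((q.1, q.2.1.unpair.1), t q) := fun ht =>
      (Primrec.fst.pair (Primrec.fst.comp hm)).pair ht
    refine PrimrecPred.and ?_ (PrimrecPred.and ?_ (PrimrecPred.or ?_ ?_))
    · exact h1.comp ((Primrec.fst.pair (Primrec.fst.comp hm)).pair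
        ((Primrec.fst.comp hm2).pair (Primrec.snd.comp Primrec.snd)))
    · exact (PrimrecRel.not hP).forall_mem_list.comp
        (Primrec.list_range.comp (Primrec.fst.comp hm2)) (hr (Primrec.snd.comp hm2))
    · exact Primrec.eq.comp (Primrec.snd.comp hm2) (Primrec.const 0)
    · exact hP.exists_mem_list.comp (Primrec.list_range.comp (Primrec.fst.comp hm2))
        (hr (Primrec.nat_sub.comp (Primrec.snd.comp hm2) (Primrec.const 1)))
  obtain ⟨g, hg, hg2⟩ := real_points E V hV fun n m L L' hL h => ⟨h2 _ _ _ _ hL h.1, h.2⟩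
  refine ⟨g, hg, fun n => ?_⟩
  have h0 : (fun _ => false : ℕ → Bool) ∉ pt '' {m | ∀ L, V n m L} := by
    rintro ⟨m, -, hm⟩
    have := congrFun hm m
    simp [pt] at this
  rw [hg2, Set.encard_insert_of_notMem h0, pt_inj.encard_image]
  congr 1
  have himg : (fun m : ℕ => m.unpair.1) '' {m | ∀ L, V n m L} = {j | U (n, j)} := by
    ext j
    constructor
    · rintro ⟨m, hm, rfl⟩
      exact (h3 _).2 ⟨_, fun L => (hm L).1⟩
    · intro hj
      obtain ⟨a₀, ha₀⟩ := (h3 _).1 hj
      have hex : ∃ a, ∀ L, P (n, j) a L := ⟨a₀, ha₀⟩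
      let a := Nat.find hex
      have ha : ∀ L, P (n, j) a L := Nat.find_spec hex
      have hlt : ∀ a' < a, ∃ L, ¬ P (n, j) a' L := by
        intro a' h
        have := Nat.find_min hex h
        push Not at this
        exact this
      have hs : ∃ s, ∀ a' < a, ¬ P (n, j) a' s := by
        choose! s hs using hlt
        refine ⟨(Finset.range a).sup s, fun a' ha' hc => hs a' ha' ?_⟩
        exact h2 _ _ _ _ (Finset.le_sup (Finset.mem_range.2 ha')) hc
      let s := Nat.find hs
      have hs1 : ∀ a' < a, ¬ P (n, j) a' s := Nat.find_spec hs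
      have hs2 : s = 0 ∨ ∃ a' < a, P (n, j) a' (s - 1) := by
        by_cases h0 : s = 0
        · exact Or.inl h0
        · right
          have := Nat.find_min hs (m := s - 1) (by omega)
          push Not at this
          exact this
      refine ⟨Nat.pair j (Nat.pair a s), fun L => ?_, by simp⟩
      simp only [V, Nat.unpair_pair, List.mem_range]
      exact ⟨ha L, hs1, hs2⟩
  rw [← himg]
  refine (Set.InjOn.encard_image ?_).symm
  intro m hm m' hm' heq
  have heq' : m.unpair.1 = m'.unpair.1 := heq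
  -- the witnesses are equal
  have key : ∀ m m' : ℕ, (∀ L, V n m L) → (∀ L, V n m' L) → m.unpair.1 = m'.unpair.1 →
      m'.unpair.2.unpair.1 ≤ m.unpair.2.unpair.1 := by
    intro m m' hm hm' h
    by_contra hc
    push Not at hc
    have := (hm' 0).2.1 m.unpair.2.unpair.1 (List.mem_range.2 hc)
    rw [← h] at this
    exact this (hm _).1
  have ha : m.unpair.2.unpair.1 = m'.unpair.2.unpair.1 :=
    le_antisymm (key m' m hm' hm heq'.symm) (key m m' hm hm' heq')
  have key2 : ∀ m m' : ℕ, (∀ L, V n m L) → (∀ L, V n m' L) → m.unpair.1 = m'.unpair.1 →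
      m.unpair.2.unpair.1 = m'.unpair.2.unpair.1 →
      m'.unpair.2.unpair.2 ≤ m.unpair.2.unpair.2 := by
    intro m m' hm hm' h h'
    by_contra hc
    push Not at hc
    rcases (hm' 0).2.2 with h0 | ⟨a', ha', hP'⟩
    · omega
    · rw [List.mem_range, ← h'] at ha'
      rw [← h] at hP'
      exact (hm 0).2.1 a' (List.mem_range.2 ha') (h2 _ _ _ _ (by omega) hP')
  have hs : m.unpair.2.unpair.2 = m'.unpair.2.unpair.2 :=
    le_antisymm (key2 m' m hm' hm heq'.symm ha.symm) (key2 m m' hm hm' heq' ha)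
  rw [← Nat.pair_unpair m, ← Nat.pair_unpair m', ← Nat.pair_unpair m.unpair.2,
    ← Nat.pair_unpair m'.unpair.2, ha, hs, heq']

/-- A class which is empty or not according to a `Σ⁰₁` event. -/
theorem real_empty (E : Enumeration) {A : Set ℕ} (hA : Sigma1 A) :
    ∃ g : ℕ → ℕ, Computable g ∧ ∀ n, (n ∈ A → E.Q (g n) = ∅) ∧
      (n ∉ A → E.Q (g n) = Set.univ) := by
  classical
  obtain ⟨R, h1, h2⟩ := hA
  obtain ⟨P, h3, h4, h5⟩ := pi_form (fun n a => ¬ R n a) h1.not
  obtain ⟨g, hg, hgF⟩ := E.smn (fun n σ => decide (P n σ.length))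
    (h3.comp (Primrec.fst.pair (Primrec.list_length.comp Primrec.snd))).decide
  refine ⟨g, hg, fun n => ⟨fun hn => ?_, fun hn => ?_⟩⟩
  · rw [Set.eq_empty_iff_forall_notMem]
    intro x hx
    obtain ⟨a, ha⟩ := (h2 n).1 hn
    refine (h5 n).2 (fun L => ?_) a ha
    have := hx L
    rw [hgF] at this
    simpa [ini_length] using this
  · rw [Set.eq_univ_iff_forall]
    intro x N
    rw [hgF]
    simp only [decide_eq_true_eq, ini_length]
    refine (h5 n).1 (fun a ha => hn ((h2 n).2 ⟨a, ha⟩)) N

end Pool.Agent.Q116.IC
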