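import Pool.Agent.Q116.IC.Up
import Pool.Agent.Q116.IC.Real

/-!
The complexity of the index sets `I_C`.
-/

set_option autoImplicit false

namespace Pool.Agent.Q116.IC

open Encodable Classical

theorem cp_and {α : Type} [Primcodable α] {p q : α → Prop} (hp : ComputablePred p)
    (hq : ComputablePred q) : ComputablePred fun a => p a ∧ q a := by
  obtain ⟨f, hf, rfl⟩ := ComputablePred.computable_iff.1 hp
  obtain ⟨g, hg, rfl⟩ := ComputablePred.computable_iff.1 hq
  refine ComputablePred.computable_iff.2 ⟨fun a => f a && g a, ?_, ?_⟩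
  · exact Primrec.and.to_comp.comp hf hg
  · funext a
    simp

theorem pp_cp {α : Type} [Primcodable α] {p : α → Prop} (hp : PrimrecPred p) :
    ComputablePred p := by
  obtain ⟨hd, h⟩ := hp
  exact ⟨hd, h.to_comp⟩

/-- A change of the membership in `C` between `c` and `c + 1`, `c ≥ 1`. -/
def Chg (C : Set ℕ) (c : ℕ) : Prop := 1 ≤ c ∧ ¬ (c ∈ C ↔ c + 1 ∈ C)

/-- The number of the changes of the membership in `C` in the sequence `1, 2, 3, …`. -/
noncomputable def changes (C : Set ℕ) : ℕ := {c | 1 ≤ c ∧ ¬ (c ∈ C ↔ c + 1 ∈ C)}.ncard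

/-- The number of changes up to `m`. -/
noncomputable def cnt (C : Set ℕ) (m : ℕ) : ℕ := Nat.count (Chg C) m

theorem cnt_mono (C : Set ℕ) {m n : ℕ} (h : m ≤ n) : cnt C m ≤ cnt C n := Nat.count_monotone _ h

theorem cnt_one (C : Set ℕ) : cnt C 1 = 0 := by
  unfold cnt
  rw [Nat.count_succ, Nat.count_zero, if_neg]
  rintro ⟨h, -⟩
  omega

theorem cnt_zero (C : Set ℕ) : cnt C 0 = 0 := Nat.count_zero _

theorem cnt_succ_le (C : Set ℕ) (m : ℕ) : cnt C (m + 1) ≤ cnt C m + 1 := by
  unfold cnt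
  rw [Nat.count_succ]
  split_ifs <;> omega

theorem cnt_parity (C : Set ℕ) (m : ℕ) (hm : 1 ≤ m) : Odd (cnt C m) ↔ ¬ (m ∈ C ↔ 1 ∈ C) := by
  induction m, hm using Nat.le_induction with
  | base => rw [cnt_one]; simp
  | succ m hm ih =>
    unfold cnt at ih ⊢
    rw [Nat.count_succ]
    by_cases hc : Chg C m
    · rw [if_pos hc, Nat.odd_add_one, ih]
      have := hc.2
      tauto
    · rw [if_neg hc, add_zero, ih]
      unfold Chg at hc
      tauto

theorem chg_finite {C : Set ℕ} (hC : C.Finite) :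
    {c | 1 ≤ c ∧ ¬ (c ∈ C ↔ c + 1 ∈ C)}.Finite := by
  have h2 : ((fun c => c + 1) ⁻¹' C).Finite := hC.preimage (by
    intro a _ b _ h
    simpa using h)
  refine (hC.union h2).subset ?_
  rintro c ⟨-, h⟩
  by_cases hc : c ∈ C
  · exact Or.inl hc
  · right
    change c + 1 ∈ C
    tauto

theorem cnt_le {C : Set ℕ} (hC : C.Finite) (m : ℕ) : cnt C m ≤ changes C := by
  unfold cnt changes
  rw [Nat.count_eq_card_filter_range, ← Set.ncard_coe_finset]
  refine Set.ncard_le_ncard ?_ (chg_finite hC)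
  intro c hc
  simp only [Finset.coe_filter, Finset.mem_range, Set.mem_ofPred_eq] at hc
  exact hc.2

theorem cnt_top {C : Set ℕ} (hC : C.Finite) : ∃ M, 1 ≤ M ∧ ∀ m, M ≤ m →
    cnt C m = changes C ∧ m ∉ C := by
  obtain ⟨M₁, hM₁⟩ := (chg_finite hC).bddAbove
  obtain ⟨M₂, hM₂⟩ := hC.bddAbove
  refine ⟨M₁ + M₂ + 1, by omega, fun m hm => ⟨?_, fun h => ?_⟩⟩
  · refine le_antisymm (cnt_le hC m) ?_
    unfold cnt changes
    rw [Nat.count_eq_card_filter_range, ← Set.ncard_coe_finset]
    refine Set.ncard_le_ncard ?_ (Finset.finite_toSet _)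
    intro c hc
    have := hM₁ hc
    simp only [Finset.coe_filter, Finset.mem_range, Set.mem_ofPred_eq]
    exact ⟨by omega, hc⟩
  · have := hM₂ h
    omega

theorem ev_const_prim (f : ℕ → ℕ) (M c : ℕ) (h : ∀ n, M ≤ n → f n = c) : Primrec f := by
  refine ((Primrec.list_getD c).comp (Primrec.const ((List.range M).map f)) Primrec.id).of_eq
    fun n => ?_
  simp only [id]
  by_cases hn : n < M
  · rw [List.getD_eq_getElem?_getD]
    simp only [List.getElem?_map, List.getElem?_range hn, Option.map_some, Option.getD_some]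
  · rw [h n (not_lt.1 hn), List.getD_eq_default]
    simpa using not_lt.1 hn

theorem cnt_prim {C : Set ℕ} (hC : C.Finite) : Primrec (cnt C) := by
  obtain ⟨M, -, hM⟩ := cnt_top hC
  exact ev_const_prim _ M _ fun n hn => (hM n hn).1

/-- The index set or its complement. -/
def side (E : Enumeration) (C : Set ℕ) : Set ℕ := if 1 ∈ C then (E.I C)ᶜ else E.I C

theorem ncard_lt (k : ℕ) : {i : ℕ | i < k}.ncard = k := by
  rw [show {i : ℕ | i < k} = ((Finset.range k : Finset ℕ) : Set ℕ) by ext; simp,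
    Set.ncard_coe_finset, Finset.card_range]

theorem ncard_lt' (k h : ℕ) (hk : h ≤ k) : {i : ℕ | i < k ∧ i < h}.ncard = h := by
  rw [show {i : ℕ | i < k ∧ i < h} = {i | i < h} by ext i; simp; omega, ncard_lt]

theorem upper_fin (E : Enumeration) {C : Set ℕ} (hC : C.Finite) (hk : 1 ≤ changes C) :
    Diff (changes C) (side E C) := by
  have h1 : S2 fun x : ℕ × ℕ => (x.1 = 0 ∧ ¬ (0 ∈ C ↔ 1 ∈ C) ∧ E.Q x.2 = ∅) ∨
      ∃ m, x.1 < cnt C m ∧ (m : ℕ∞) ≤ (E.Q x.2).encard := by
    refine S2.or ?_ ?_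
    · obtain ⟨R, hR, hR2⟩ := empty_sigma E
      refine S2.of_sigma (fun (x : ℕ × ℕ) a => x.1 = 0 ∧ ¬ (0 ∈ C ↔ 1 ∈ C) ∧ R x.2 a) ?_ ?_
      · refine PrimrecPred.and (Primrec.eq.comp (Primrec.fst.comp Primrec.fst) (Primrec.const 0))
          (PrimrecPred.and ?_ (hR.comp ((Primrec.snd.comp Primrec.fst).pair Primrec.snd)))
        by_cases hz : (0 ∈ C ↔ 1 ∈ C)
        · exact (Primrec.eq.comp (Primrec.const 0) (Primrec.const 1)).of_eq fun _ => by simp [hz]
        · exact (Primrec.eq.comp (Primrec.const 0) (Primrec.const 0)).of_eq fun _ => by simp [hz]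
      · intro x
        rw [hR2]
        constructor
        · rintro ⟨h1, h2, a, ha⟩
          exact ⟨a, h1, h2, ha⟩
        · rintro ⟨a, h1, h2, ha⟩
          exact ⟨h1, h2, a, ha⟩
    · have h2 : S2 fun x : (ℕ × ℕ) × ℕ => x.1.1 < cnt C x.2 ∧
          (x.2 : ℕ∞) ≤ (E.Q x.1.2).encard := by
        refine S2.and (S2.of_prim (Primrec.nat_lt.comp (Primrec.fst.comp Primrec.fst)
          ((cnt_prim hC).comp Primrec.snd))) ?_
        exact (ge_s2 E).comp ((Primrec.snd.comp Primrec.fst).pair Primrec.snd)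
      exact S2.exists (U := fun x : (ℕ × ℕ) × ℕ => x.1.1 < cnt C x.2 ∧
          (x.2 : ℕ∞) ≤ (E.Q x.1.2).encard) h2
  obtain ⟨P, hP, -, hP3⟩ := h1
  refine ⟨fun i n a b => P (i, n) a b, ?_, ?_, ?_⟩
  · refine pp_cp (hP.comp ((Primrec.fst.pair (Primrec.fst.comp Primrec.snd)).pair
      (Primrec.snd.comp Primrec.snd)))
  · intro i n _ h
    rw [← hP3 (i + 1, n)] at h
    rw [← hP3 (i, n)]
    rcases h with ⟨h, -⟩ | ⟨m, h, h'⟩
    · exact absurd h (Nat.succ_ne_zero i)
    · refine Or.inr ⟨m, ?_, h'⟩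
      exact (Nat.lt_succ_self i).trans h
  · intro n
    have h4 : {i | i < changes C ∧ ∃ a, ∀ b, P (i, n) a b} = {i | i < changes C ∧
        ((i = 0 ∧ ¬ (0 ∈ C ↔ 1 ∈ C) ∧ E.Q n = ∅) ∨
          ∃ m, i < cnt C m ∧ (m : ℕ∞) ≤ (E.Q n).encard)} := by
      ext i
      simp only [Set.mem_ofPred_eq, ← hP3 (i, n)]
    rw [h4]
    by_cases hfin : (E.Q n).Finite
    · by_cases hem : E.Q n = ∅
      · have hI : n ∈ E.I C ↔ 0 ∈ C := by
          constructor
          · rintro ⟨-, h⟩
            rwa [hem, Set.ncard_empty] at h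
          · intro h
            exact ⟨hfin, by rwa [hem, Set.ncard_empty]⟩
        have h5 : {i | i < changes C ∧ ((i = 0 ∧ ¬ (0 ∈ C ↔ 1 ∈ C) ∧ E.Q n = ∅) ∨
          ∃ m, i < cnt C m ∧ (m : ℕ∞) ≤ (E.Q n).encard)} =
            if (0 ∈ C ↔ 1 ∈ C) then ∅ else {0} := by
          ext i
          rw [hem, Set.encard_empty]
          have hno : ¬ ∃ m, i < cnt C m ∧ (m : ℕ∞) ≤ 0 := by
            rintro ⟨m, h1, h2⟩
            have : m = 0 := by simpa using h2
            rw [this, cnt_zero] at h1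
            omega
          split_ifs with hz
          · simp only [Set.mem_ofPred_eq, Set.mem_empty_iff_false, iff_false]
            rintro ⟨-, h | h⟩
            · exact h.2.1 hz
            · exact hno h
          · simp only [Set.mem_ofPred_eq, Set.mem_singleton_iff]
            constructor
            · rintro ⟨-, h | h⟩
              · exact h.1
              · exact absurd h hno
            · rintro rfl
              exact ⟨hk, Or.inl ⟨rfl, hz, trivial⟩⟩
        rw [h5]
        unfold side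
        split_ifs with h01 hz hz
        · simp only [Set.mem_compl_iff, Set.ncard_empty, hI]
          simp only [Nat.not_odd_zero, iff_false, not_not]
          tauto
        · simp only [Set.mem_compl_iff, Set.ncard_singleton, odd_one, iff_true, hI]
          tauto
        · simp only [Set.ncard_empty, Nat.not_odd_zero, iff_false, hI]
          tauto
        · simp only [Set.ncard_singleton, odd_one, iff_true, hI]
          tauto
      · have hm : 1 ≤ (E.Q n).ncard :=
          (Set.ncard_pos hfin).2 (Set.nonempty_iff_ne_empty.2 hem)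
        have h5 : {i | i < changes C ∧ ((i = 0 ∧ ¬ (0 ∈ C ↔ 1 ∈ C) ∧ E.Q n = ∅) ∨
          ∃ m, i < cnt C m ∧ (m : ℕ∞) ≤ (E.Q n).encard)} =
            {i | i < changes C ∧ i < cnt C (E.Q n).ncard} := by
          ext i
          simp only [Set.mem_ofPred_eq]
          refine and_congr_right fun _ => ?_
          rw [← hfin.cast_ncard_eq]
          constructor
          · rintro (h | ⟨m, h1, h2⟩)
            · exact absurd h.2.2 hem
            · exact h1.trans_le (cnt_mono C (by exact_mod_cast h2))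
          · intro h
            exact Or.inr ⟨_, h, le_rfl⟩
        rw [h5, ncard_lt' _ _ (cnt_le hC _), cnt_parity C _ hm]
        have hI : n ∈ E.I C ↔ (E.Q n).ncard ∈ C := ⟨fun h => h.2, fun h => ⟨hfin, h⟩⟩
        unfold side
        split_ifs with h01
        · simp only [Set.mem_compl_iff, hI]
          tauto
        · rw [hI]
          tauto
    · have htop : (E.Q n).encard = ⊤ := Set.encard_eq_top_iff.2 hfin
      obtain ⟨M, hM1, hM⟩ := cnt_top hC
      have h5 : {i | i < changes C ∧ ((i = 0 ∧ ¬ (0 ∈ C ↔ 1 ∈ C) ∧ E.Q n = ∅) ∨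
          ∃ m, i < cnt C m ∧ (m : ℕ∞) ≤ (E.Q n).encard)} = {i | i < changes C} := by
        ext i
        simp only [Set.mem_ofPred_eq]
        refine ⟨fun h => h.1, fun h => ⟨h, Or.inr ⟨M, ?_, by rw [htop]; exact le_top⟩⟩⟩
        rwa [(hM M le_rfl).1]
      rw [h5, ncard_lt, ← (hM M le_rfl).1, cnt_parity C _ hM1]
      have hI : n ∉ E.I C := fun h => hfin h.1
      have hMC := (hM M le_rfl).2
      unfold side
      split_ifs with h01
      · simp only [Set.mem_compl_iff, hI]
        tauto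
      · simp only [hI]
        tauto

theorem iio_encard (s : ℕ) : {j : ℕ | j < s}.encard = s := by
  rw [show {i : ℕ | i < s} = ((Finset.range s : Finset ℕ) : Set ℕ) by ext; simp,
    Set.encard_coe_eq_coe_finsetCard, Finset.card_range]

theorem hard_fin (E : Enumeration) {C : Set ℕ} (hC : C.Finite) (B : Set ℕ)
    (hB : Diff (changes C) B) :
    ∃ g : ℕ → ℕ, Computable g ∧ ∀ n, n ∈ B ↔ g n ∈ side E C := by
  obtain ⟨R, h1, h2, h3⟩ := hB
  have hU : S2 fun x : ℕ × ℕ => cnt C (x.2 + 1) < changes C ∧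
      ∃ a, ∀ b, R (cnt C (x.2 + 1)) x.1 a b := by
    have hc : Primrec fun x : ℕ × ℕ => cnt C (x.2 + 1) :=
      (cnt_prim hC).comp (Primrec.succ.comp Primrec.snd)
    refine S2.and (S2.of_prim (Primrec.nat_lt.comp hc (Primrec.const _))) ?_
    refine S2.of_computable (fun (x : ℕ × ℕ) a b => R (cnt C (x.2 + 1)) x.1 a b) ?_
      fun x => Iff.rfl
    have h4 : Computable fun q : (ℕ × ℕ) × ℕ × ℕ => (cnt C (q.1.2 + 1), q.1.1, q.2.1, q.2.2) :=
      ((hc.comp Primrec.fst).pair ((Primrec.fst.comp Primrec.fst).pair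
        ((Primrec.fst.comp Primrec.snd).pair (Primrec.snd.comp Primrec.snd)))).to_comp
    exact cp_comp h1 h4
  obtain ⟨g, hg, hg2⟩ := real_count E hU
  refine ⟨g, hg, fun n => ?_⟩
  -- the number of the sets of the sequence which contain `n`
  set h : ℕ := {i | i < changes C ∧ ∃ a, ∀ b, R i n a b}.ncard with hh
  have hnest : ∀ i, i < changes C → ((∃ a, ∀ b, R i n a b) ↔ i < h) := by
    have hsub : ∀ i j, j ≤ i → i < changes C → (∃ a, ∀ b, R i n a b) → ∃ a, ∀ b, R j n a b := by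
      intro i j hj
      induction i, hj using Nat.le_induction with
      | base => exact fun _ h => h
      | succ i _ ih => exact fun hi hR => ih (by omega) (h2 i n hi hR)
    by_cases hall : ∀ i, i < changes C → ∃ a, ∀ b, R i n a b
    · have : {i | i < changes C ∧ ∃ a, ∀ b, R i n a b} = {i | i < changes C} := by
        ext i
        exact ⟨fun h => h.1, fun h => ⟨h, hall i h⟩⟩
      rw [this, ncard_lt] at hh
      intro i hi
      exact ⟨fun _ => by omega, fun _ => hall i hi⟩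
    · push Not at hall
      have hex : ∃ i, i < changes C ∧ ¬ ∃ a, ∀ b, R i n a b := by
        obtain ⟨i, hi, hi2⟩ := hall
        refine ⟨i, hi, ?_⟩
        push Not
        exact hi2
      let t := Nat.find hex
      have ht := Nat.find_spec hex
      have hmin : ∀ i < t, i < changes C → ∃ a, ∀ b, R i n a b := by
        intro i hi hik
        by_contra hc
        exact Nat.find_min hex hi ⟨hik, hc⟩
      have hset : {i | i < changes C ∧ ∃ a, ∀ b, R i n a b} = {i | i < t} := by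
        ext i
        simp only [Set.mem_ofPred_eq]
        constructor
        · rintro ⟨hi, hR⟩
          by_contra hc
          exact ht.2 (hsub i t (not_lt.1 hc) hi hR)
        · intro hi
          have : i < changes C := lt_trans hi ht.1
          exact ⟨this, hmin i hi this⟩
      rw [hset, ncard_lt] at hh
      intro i hi
      rw [hh]
      constructor
      · intro hR
        have : i ∈ {i | i < changes C ∧ ∃ a, ∀ b, R i n a b} := ⟨hi, hR⟩
        rwa [hset] at this
      · intro hit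
        exact hmin i hit hi
  have hhk : h ≤ changes C := by
    rw [hh]
    calc _ ≤ {i : ℕ | i < changes C}.ncard := by
          refine Set.ncard_le_ncard (fun i hi => hi.1) ?_
          exact (Set.finite_lt_nat _)
      _ = changes C := ncard_lt _
  have hset : {j | cnt C (j + 1) < changes C ∧ ∃ a, ∀ b, R (cnt C (j + 1)) n a b} =
      {j | cnt C (j + 1) < h} := by
    ext j
    simp only [Set.mem_ofPred_eq]
    constructor
    · rintro ⟨h5, h6⟩
      exact (hnest _ h5).1 h6
    · intro h5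
      have h6 : cnt C (j + 1) < changes C := by omega
      exact ⟨h6, (hnest _ h6).2 h5⟩
  obtain ⟨M, hM1, hM⟩ := cnt_top hC
  have hex : ∃ j, h ≤ cnt C (j + 1) := ⟨M, by
    rw [(hM (M + 1) (by omega)).1]
    exact hhk⟩
  obtain ⟨s, hs1, hs2⟩ : ∃ s, h ≤ cnt C (s + 1) ∧ ∀ j < s, cnt C (j + 1) < h := by
    refine ⟨Nat.find hex, Nat.find_spec hex, fun j hj => ?_⟩
    have := Nat.find_min hex hj
    omega
  have hset2 : {j | cnt C (j + 1) < h} = {j | j < s} := by
    ext j
    simp only [Set.mem_ofPred_eq]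
    constructor
    · intro hj
      by_contra hc
      have := cnt_mono C (show s + 1 ≤ j + 1 by omega)
      omega
    · exact hs2 j
  have hcount : (E.Q (g n)).encard = ((s + 1 : ℕ) : ℕ∞) := by
    rw [hg2 n]
    change {j | cnt C (j + 1) < changes C ∧ ∃ a, ∀ b, R (cnt C (j + 1)) n a b}.encard + 1 = _
    rw [hset, hset2, iio_encard]
    push_cast
    rfl
  have hfin : (E.Q (g n)).Finite := by
    rw [← Set.encard_ne_top_iff, hcount]
    exact ENat.natCast_ne_top _
  have hncard : (E.Q (g n)).ncard = s + 1 := by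
    unfold Set.ncard
    rw [hcount]
    rfl
  have hcs : cnt C (s + 1) = h := by
    refine le_antisymm ?_ hs1
    rcases Nat.eq_zero_or_pos s with h0 | h0
    · rw [h0, zero_add, cnt_one]
      exact Nat.zero_le _
    · have h5 := hs2 (s - 1) (by omega)
      rw [Nat.sub_add_cancel h0] at h5
      have h6 := cnt_succ_le C s
      omega
  have hI : g n ∈ E.I C ↔ s + 1 ∈ C := by
    constructor
    · rintro ⟨-, h⟩
      rwa [hncard] at h
    · intro h
      exact ⟨hfin, by rwa [hncard]⟩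
  rw [h3 n, ← hh, ← hcs, cnt_parity C (s + 1) (by omega)]
  unfold side
  split_ifs with h01
  · simp only [Set.mem_compl_iff, hI]
    tauto
  · rw [hI]
    tauto

theorem complete_fin_not_mem (E : Enumeration) {C : Set ℕ} (hC : C.Finite) (h0 : ¬ C ⊆ {0})
    (h1 : 1 ∉ C) : Complete (Diff (changes C)) (E.I C) := by
  have hs : side E C = E.I C := if_neg h1
  have hk : 1 ≤ changes C := by
    obtain ⟨c, hc, hc0⟩ := Set.not_subset.1 h0
    have hc1 : 1 ≤ c := Nat.one_le_iff_ne_zero.2 fun h => hc0 (by simpa using h)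
    have h2 : Odd (cnt C c) := (cnt_parity C c hc1).2 (by tauto)
    exact h2.pos.trans_le (cnt_le hC c)
  refine ⟨?_, fun B hB => ?_⟩
  · rw [← hs]
    exact upper_fin E hC hk
  · rw [← hs]
    exact hard_fin E hC B hB

theorem complete_fin_mem (E : Enumeration) {C : Set ℕ} (hC : C.Finite)
    (h1 : 1 ∈ C) : Complete (CoDiff (changes C)) (E.I C) := by
  have hs : side E C = (E.I C)ᶜ := if_pos h1
  have hk : 1 ≤ changes C := by
    obtain ⟨M, hM1, hM⟩ := cnt_top hC
    have h2 : Odd (cnt C M) := (cnt_parity C M hM1).2 (by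
      have := (hM M le_rfl).2
      tauto)
    exact h2.pos.trans_le (cnt_le hC M)
  refine ⟨?_, fun B hB => ?_⟩
  · unfold CoDiff
    rw [← hs]
    exact upper_fin E hC hk
  · obtain ⟨g, hg, hg2⟩ := hard_fin E hC Bᶜ hB
    refine ⟨g, hg, fun n => ?_⟩
    have := hg2 n
    rw [hs, Set.mem_compl_iff, Set.mem_compl_iff] at this
    tauto

theorem complete_zero (E : Enumeration) : Complete Sigma1 (E.I {0}) := by
  have hI : ∀ e, e ∈ E.I {0} ↔ E.Q e = ∅ := by
    intro e
    constructor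
    · rintro ⟨h1, h2⟩
      exact (Set.ncard_eq_zero h1).1 h2
    · intro h
      unfold Enumeration.I
      simp [h]
  refine ⟨?_, fun B hB => ?_⟩
  · obtain ⟨R, hR, hR2⟩ := empty_sigma E
    exact ⟨R, pp_cp hR, fun n => (hI n).trans (hR2 n)⟩
  · obtain ⟨g, hg, hg2⟩ := real_empty E hB
    refine ⟨g, hg, fun n => ?_⟩
    rw [hI]
    constructor
    · exact (hg2 n).1
    · intro h
      by_contra hn
      rw [(hg2 n).2 hn] at h
      exact Set.empty_ne_univ h.symm

theorem upper_inf (E : Enumeration) {C : Set ℕ} (hC : Sigma3 C) : Sigma3 (E.I C) := by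
  obtain ⟨S, hS, hS2⟩ := hC
  obtain ⟨P, hP, -, hP3⟩ := ge_s2 E
  refine ⟨fun e x y z => S x.unpair.1 x.unpair.2.unpair.1 y.unpair.1 z.unpair.1 ∧
    (P (e, x.unpair.1) x.unpair.2.unpair.2 y.unpair.2.unpair.1 ∧
      ¬ P (e, x.unpair.1 + 1) y.unpair.2.unpair.2 z.unpair.2), ?_, fun e => ?_⟩
  · have hx : Primrec fun q : ℕ × ℕ × ℕ × ℕ => q.2.1.unpair :=
      Primrec.unpair.comp (Primrec.fst.comp Primrec.snd)
    have hy : Primrec fun q : ℕ × ℕ × ℕ × ℕ => q.2.2.1.unpair :=
      Primrec.unpair.comp (Primrec.fst.comp (Primrec.snd.comp Primrec.snd))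
    have hz : Primrec fun q : ℕ × ℕ × ℕ × ℕ => q.2.2.2.unpair :=
      Primrec.unpair.comp (Primrec.snd.comp (Primrec.snd.comp Primrec.snd))
    have hx2 := Primrec.unpair.comp (Primrec.snd.comp hx)
    have hy2 := Primrec.unpair.comp (Primrec.snd.comp hy)
    have h1 : Computable fun q : ℕ × ℕ × ℕ × ℕ => (q.2.1.unpair.1, q.2.1.unpair.2.unpair.1,
        q.2.2.1.unpair.1, q.2.2.2.unpair.1) :=
      ((Primrec.fst.comp hx).pair ((Primrec.fst.comp hx2).pair ((Primrec.fst.comp hy).pair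
        (Primrec.fst.comp hz)))).to_comp
    refine cp_and (cp_comp hS h1) (pp_cp (PrimrecPred.and ?_ (PrimrecPred.not ?_)))
    · exact hP.comp ((Primrec.fst.pair (Primrec.fst.comp hx)).pair
        ((Primrec.snd.comp hx2).pair (Primrec.fst.comp hy2)))
    · exact hP.comp ((Primrec.fst.pair (Primrec.succ.comp (Primrec.fst.comp hx))).pair
        ((Primrec.snd.comp hy2).pair (Primrec.snd.comp hz)))
  · have hge : ∀ m : ℕ, (m : ℕ∞) ≤ (E.Q e).encard ↔ ∃ a, ∀ L, P (e, m) a L :=
      fun m => hP3 (e, m)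
    constructor
    · rintro ⟨hfin, hm⟩
      obtain ⟨p, hp⟩ := (hS2 _).1 hm
      obtain ⟨a, ha⟩ := (hge (E.Q e).ncard).1 (by rw [hfin.cast_ncard_eq])
      have hnot : ¬ ∃ a, ∀ L, P (e, (E.Q e).ncard + 1) a L := by
        rw [← hge]
        rw [← hfin.cast_ncard_eq]
        intro h
        have h' : (E.Q e).ncard + 1 ≤ (E.Q e).ncard := by exact_mod_cast h
        omega
      push Not at hnot
      refine ⟨Nat.pair (E.Q e).ncard (Nat.pair p a), fun y => ?_⟩
      obtain ⟨r, hr⟩ := hp y.unpair.1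
      obtain ⟨L', hL'⟩ := hnot y.unpair.2.unpair.2
      refine ⟨Nat.pair r L', ?_⟩
      simp only [Nat.unpair_pair]
      exact ⟨hr, ha _, hL'⟩
    · rintro ⟨x, hx⟩
      have h1 : x.unpair.1 ∈ C := by
        rw [hS2]
        refine ⟨x.unpair.2.unpair.1, fun q => ?_⟩
        obtain ⟨z, hz⟩ := hx (Nat.pair q 0)
        simp only [Nat.unpair_pair] at hz
        exact ⟨_, hz.1⟩
      have h2 : (x.unpair.1 : ℕ∞) ≤ (E.Q e).encard := by
        rw [hge]
        refine ⟨x.unpair.2.unpair.2, fun L => ?_⟩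
        obtain ⟨z, hz⟩ := hx (Nat.pair 0 (Nat.pair L 0))
        simp only [Nat.unpair_pair] at hz
        exact hz.2.1
      have h3 : ¬ ((x.unpair.1 + 1 : ℕ) : ℕ∞) ≤ (E.Q e).encard := by
        rw [hge]
        push Not
        intro a
        obtain ⟨z, hz⟩ := hx (Nat.pair 0 (Nat.pair 0 a))
        simp only [Nat.unpair_pair] at hz
        exact ⟨_, hz.2.2⟩
      have hfin : (E.Q e).Finite := by
        rw [← Set.encard_ne_top_iff]
        intro h
        rw [h] at h3
        exact h3 le_top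
      rw [← hfin.cast_ncard_eq] at h2 h3
      have h4 : x.unpair.1 ≤ (E.Q e).ncard := by exact_mod_cast h2
      have h5 : ¬ x.unpair.1 + 1 ≤ (E.Q e).ncard := by exact_mod_cast h3
      have h6 : (E.Q e).ncard = x.unpair.1 := by omega
      exact ⟨hfin, by rwa [h6]⟩

theorem hard_inf (E : Enumeration) {C C₀ : Set ℕ} (hsub : C₀ ⊆ C) (hinf : C₀.Infinite)
    (hC₀ : Sigma2 C₀ᶜ) (B : Set ℕ) (hB : Sigma3 B) :
    ∃ g : ℕ → ℕ, Computable g ∧ ∀ n, n ∈ B ↔ g n ∈ E.I C := by
  obtain ⟨S, hS, hS2⟩ := hB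
  -- the first `c + 1` witnesses fail
  have hG0 : S2 fun x : (ℕ × ℕ) × ℕ => ∃ q, ∀ r, ¬ S x.1.1 x.2 q r := by
    refine S2.of_computable (fun (x : (ℕ × ℕ) × ℕ) q r => ¬ S x.1.1 x.2 q r) ?_ fun x => Iff.rfl
    have h1 : Computable fun q : ((ℕ × ℕ) × ℕ) × ℕ × ℕ => (q.1.1.1, q.1.2, q.2.1, q.2.2) :=
      ((Primrec.fst.comp (Primrec.fst.comp Primrec.fst)).pair ((Primrec.snd.comp Primrec.fst).pair
        ((Primrec.fst.comp Primrec.snd).pair (Primrec.snd.comp Primrec.snd)))).to_comp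
    exact (cp_comp hS h1).not
  have hG : S2 fun x : ℕ × ℕ => ∀ p < x.2 + 1, ∃ q, ∀ r, ¬ S x.1 p q r :=
    S2.ball (U := fun x : (ℕ × ℕ) × ℕ => ∃ q, ∀ r, ¬ S x.1.1 x.2 q r) hG0
      (Primrec.succ.comp Primrec.snd)
  have hU : S2 fun x : ℕ × ℕ => ∀ c < x.2 + 1, (c + 1 ∈ C₀ᶜ ∨
      ∀ p < c + 1, ∃ q, ∀ r, ¬ S x.1 p q r) := by
    refine S2.ball (U := fun x : (ℕ × ℕ) × ℕ => (x.2 + 1 ∈ C₀ᶜ ∨
      ∀ p < x.2 + 1, ∃ q, ∀ r, ¬ S x.1.1 p q r)) (S2.or ?_ ?_) (Primrec.succ.comp Primrec.snd)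
    · exact hC₀.s2.comp (Primrec.succ.comp Primrec.snd)
    · exact hG.comp ((Primrec.fst.comp Primrec.fst).pair Primrec.snd)
  obtain ⟨g, hg, hg2⟩ := real_count E hU
  refine ⟨g, hg, fun n => ?_⟩
  by_cases hn : n ∈ B
  · refine iff_of_true hn ?_
    have hex := (hS2 n).1 hn
    have hp0 : ∃ p₀, (∀ q, ∃ r, S n p₀ q r) ∧ ∀ p < p₀, ∃ q, ∀ r, ¬ S n p q r := by
      refine ⟨Nat.find hex, Nat.find_spec hex, fun p hp => ?_⟩
      have := Nat.find_min hex hp
      push Not at this
      exact this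
    obtain ⟨p₀, hp1, hp2⟩ := hp0
    have hGc : ∀ c, (∀ p < c + 1, ∃ q, ∀ r, ¬ S n p q r) ↔ c < p₀ := by
      intro c
      constructor
      · intro h
        by_contra hc
        obtain ⟨q, hq⟩ := h p₀ (by omega)
        obtain ⟨r, hr⟩ := hp1 q
        exact hq r hr
      · intro h p hp
        exact hp2 p (by omega)
    have hex2 : ∃ c, c + 1 ∈ C₀ ∧ p₀ ≤ c := by
      obtain ⟨m, hm, hm2⟩ := hinf.exists_gt (p₀ + 1)
      exact ⟨m - 1, by rwa [Nat.sub_add_cancel (by omega)], by omega⟩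
    obtain ⟨s, hs1, hs2⟩ : ∃ s, (s + 1 ∈ C₀ ∧ p₀ ≤ s) ∧ ∀ c < s, ¬ (c + 1 ∈ C₀ ∧ p₀ ≤ c) :=
      ⟨Nat.find hex2, Nat.find_spec hex2, fun c hc => Nat.find_min hex2 hc⟩
    have hset : {j | ∀ c < j + 1, (c + 1 ∈ C₀ᶜ ∨ ∀ p < c + 1, ∃ q, ∀ r, ¬ S n p q r)} =
        {j | j < s} := by
      ext j
      simp only [Set.mem_ofPred_eq]
      constructor
      · intro h
        by_contra hc
        rcases h s (by omega) with h | h
        · exact h hs1.1
        · rw [hGc] at h
          omega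
      · intro hj c hc
        rw [hGc]
        have := hs2 c (by omega)
        by_cases h1 : c + 1 ∈ C₀
        · right
          by_contra h2
          exact this ⟨h1, not_lt.1 h2⟩
        · exact Or.inl h1
    have hcount : (E.Q (g n)).encard = ((s + 1 : ℕ) : ℕ∞) := by
      rw [hg2 n]
      change {j | ∀ c < j + 1, (c + 1 ∈ C₀ᶜ ∨
        ∀ p < c + 1, ∃ q, ∀ r, ¬ S n p q r)}.encard + 1 = _
      rw [hset, iio_encard]
      push_cast
      rfl
    have hfin : (E.Q (g n)).Finite := by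
      rw [← Set.encard_ne_top_iff, hcount]
      exact ENat.natCast_ne_top _
    have hncard : (E.Q (g n)).ncard = s + 1 := by
      unfold Set.ncard
      rw [hcount]
      rfl
    exact ⟨hfin, by rw [hncard]; exact hsub hs1.1⟩
  · refine iff_of_false hn ?_
    rintro ⟨hfin, -⟩
    have hall : ∀ p, ∃ q, ∀ r, ¬ S n p q r := by
      intro p
      by_contra hc
      push Not at hc
      exact hn ((hS2 n).2 ⟨p, hc⟩)
    have hset : {j | ∀ c < j + 1, (c + 1 ∈ C₀ᶜ ∨ ∀ p < c + 1, ∃ q, ∀ r, ¬ S n p q r)} =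
        Set.univ := by
      ext j
      simp only [Set.mem_ofPred_eq, Set.mem_univ, iff_true]
      exact fun c _ => Or.inr fun p _ => hall p
    have h1 : (E.Q (g n)).encard = ⊤ := by
      rw [hg2 n]
      change {j | ∀ c < j + 1, (c + 1 ∈ C₀ᶜ ∨
        ∀ p < c + 1, ∃ q, ∀ r, ¬ S n p q r)}.encard + 1 = _
      rw [hset, Set.encard_univ, ENat.card_eq_top_of_infinite]
      rfl
    exact (Set.encard_ne_top_iff.2 hfin) h1

theorem complete_inf (E : Enumeration) {C C₀ : Set ℕ} (hC : Sigma3 C) (hsub : C₀ ⊆ C)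
    (hinf : C₀.Infinite) (hC₀ : Sigma2 C₀ᶜ) : Complete Sigma3 (E.I C) :=
  ⟨upper_inf E hC, fun B hB => hard_inf E hsub hinf hC₀ B hB⟩

end Pool.Agent.Q116.IC
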