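import Pool.Agent.Q116.IC.Ext

/-!
An infinite `Δ⁰₃` set `C` for which `I_C` is not complete for `Σ⁰₃`.
-/

set_option autoImplicit false

namespace Pool.Agent.Q116.IC

open Encodable Classical

/-- The partial computable function with the index `k` has a value `y` at `k` and the class with
the index `y` has at least `c` members. -/
def T (E : Enumeration) (x : ℕ × ℕ) : Prop :=
  ∃ y ∈ Nat.Partrec.Code.eval (Denumerable.ofNat Nat.Partrec.Code x.1) x.1,
    (x.2 : ℕ∞) ≤ (E.Q y).encard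

theorem T_s2 (E : Enumeration) : S2 (T E) := by
  have h1 : S2 fun x : ℕ × ℕ => ∃ s y, y ∈ Nat.Partrec.Code.evaln s
      (Denumerable.ofNat Nat.Partrec.Code x.1) x.1 ∧ (x.2 : ℕ∞) ≤ (E.Q y).encard := by
    refine S2.exists (U := fun x : (ℕ × ℕ) × ℕ => ∃ y, y ∈ Nat.Partrec.Code.evaln x.2
      (Denumerable.ofNat Nat.Partrec.Code x.1.1) x.1.1 ∧ (x.1.2 : ℕ∞) ≤ (E.Q y).encard) ?_
    refine S2.exists (U := fun x : ((ℕ × ℕ) × ℕ) × ℕ => x.2 ∈ Nat.Partrec.Code.evaln x.1.2
      (Denumerable.ofNat Nat.Partrec.Code x.1.1.1) x.1.1.1 ∧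
        (x.1.1.2 : ℕ∞) ≤ (E.Q x.2).encard) ?_
    refine S2.and (S2.of_prim ?_) ((ge_s2 E).comp (f := fun x : ((ℕ × ℕ) × ℕ) × ℕ =>
      (x.2, x.1.1.2)) (Primrec.snd.pair (Primrec.snd.comp (Primrec.fst.comp Primrec.fst))))
    have h2 : Primrec fun x : ((ℕ × ℕ) × ℕ) × ℕ => x.1.1.1 :=
      Primrec.fst.comp (Primrec.fst.comp Primrec.fst)
    have h3 : Primrec fun x : ((ℕ × ℕ) × ℕ) × ℕ => Nat.Partrec.Code.evaln x.1.2
        (Denumerable.ofNat Nat.Partrec.Code x.1.1.1) x.1.1.1 :=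
      Nat.Partrec.Code.primrec_evaln.comp
        (((Primrec.snd.comp Primrec.fst).pair ((Primrec.ofNat _).comp h2)).pair h2)
    exact Primrec.eq.comp h3 (Primrec.option_some.comp Primrec.snd)
  refine h1.of_eq fun x => ?_
  constructor
  · rintro ⟨s, y, hy, h⟩
    exact ⟨y, Nat.Partrec.Code.evaln_sound hy, h⟩
  · rintro ⟨y, hy, h⟩
    obtain ⟨s, hs⟩ := Nat.Partrec.Code.evaln_complete.1 hy
    exact ⟨s, y, hs, h⟩

theorem T_mono (E : Enumeration) {k c c' : ℕ} (h : c ≤ c') (hT : T E (k, c')) : T E (k, c) := by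
  obtain ⟨y, hy, h'⟩ := hT
  exact ⟨y, hy, le_trans (by exact_mod_cast h) h'⟩

theorem T_uniq (E : Enumeration) {k c c' : ℕ} (h : T E (k, c)) (h' : ¬ T E (k, c + 1))
    (g : T E (k, c')) (g' : ¬ T E (k, c' + 1)) : c = c' := by
  by_contra hn
  rcases Nat.lt_or_gt_of_ne hn with hc | hc
  · exact h' (T_mono E hc g)
  · exact g' (T_mono E hc h)

/-- The set `C`. -/
def CC (E : Enumeration) : Set ℕ := {c | ∀ k, 2 * k < c → T E (k, c) → T E (k, c + 1)}

theorem CC_compl (E : Enumeration) : Sigma3 (CC E)ᶜ := by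
  have h1 : Primrec fun x : ℕ × ℕ => (x.2, x.1) := Primrec.snd.pair Primrec.fst
  have h2 : Primrec fun x : ℕ × ℕ => (x.2, x.1 + 1) :=
    Primrec.snd.pair (Primrec.succ.comp Primrec.fst)
  refine sigma3_of (U := fun x => 2 * x.2 < x.1 ∧ T E (x.2, x.1))
    (V := fun x => T E (x.2, x.1 + 1)) (S2.and (S2.of_prim ?_) ((T_s2 E).comp h1))
    ((T_s2 E).comp h2) fun x => ?_
  · exact Primrec.nat_lt.comp (Primrec.nat_mul.comp (Primrec.const 2) Primrec.snd) Primrec.fst
  · simp only [CC, Set.mem_compl_iff, Set.mem_ofPred_eq]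
    push Not
    exact exists_congr fun k => by tauto

theorem CC_sigma3 (E : Enumeration) : Sigma3 (CC E) := by
  have hS : S2 fun x : ℕ × ℕ => ∀ k < x.1, entry x.2 k = 0 ∨ T E (k, x.1 + 1) := by
    refine S2.ball (U := fun x : (ℕ × ℕ) × ℕ => entry x.1.2 x.2 = 0 ∨ T E (x.2, x.1.1 + 1))
      (S2.or (S2.of_prim ?_) ((T_s2 E).comp (f := fun x : (ℕ × ℕ) × ℕ => (x.2, x.1.1 + 1)) ?_))
      Primrec.fst
    · exact Primrec.eq.comp (entry_prim.comp (Primrec.snd.comp Primrec.fst) Primrec.snd)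
        (Primrec.const 0)
    · exact Primrec.snd.pair (Primrec.succ.comp (Primrec.fst.comp Primrec.fst))
  have hV : S2 fun x : ℕ × ℕ => ∃ k, (entry x.2 k = 0 ∧ 2 * k < x.1) ∧ T E (k, x.1) := by
    refine S2.exists (U := fun x : (ℕ × ℕ) × ℕ => (entry x.1.2 x.2 = 0 ∧ 2 * x.2 < x.1.1) ∧
      T E (x.2, x.1.1)) (S2.and (S2.of_prim (PrimrecPred.and ?_ ?_))
        ((T_s2 E).comp (f := fun x : (ℕ × ℕ) × ℕ => (x.2, x.1.1)) ?_))
    · exact Primrec.eq.comp (entry_prim.comp (Primrec.snd.comp Primrec.fst) Primrec.snd)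
        (Primrec.const 0)
    · exact Primrec.nat_lt.comp (Primrec.nat_mul.comp (Primrec.const 2) Primrec.snd)
        (Primrec.fst.comp Primrec.fst)
    · exact Primrec.snd.pair (Primrec.fst.comp Primrec.fst)
  refine sigma3_of hS hV fun x => ?_
  constructor
  · intro hx
    let g : ℕ → ℕ := fun k => if T E (k, x + 1) then 1 else 0
    have hent : ∀ k < x, entry (encode ((List.range x).map g)) k = g k := by
      intro k hk
      rw [entry_encode, List.getD_eq_getElem?_getD]
      simp only [List.getElem?_map, List.getElem?_range hk, Option.map_some, Option.getD_some]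
    refine ⟨encode ((List.range x).map g), fun k hk => ?_, ?_⟩
    · rw [hent k hk]
      by_cases h : T E (k, x + 1)
      · exact Or.inr h
      · left
        simp [g, h]
    · rintro ⟨k, ⟨hk, hk2⟩, hk3⟩
      have hkx : k < x := by
        have : 2 * k < x := hk2
        omega
      change entry (encode ((List.range x).map g)) k = 0 at hk
      rw [hent k hkx] at hk
      have h1 : ¬ T E (k, x + 1) := by
        intro h
        simp [g, h] at hk
      exact h1 (hx k hk2 hk3)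
  · rintro ⟨t, h1, h2⟩ k hk hT
    have hkx : k < x := by omega
    rcases h1 k hkx with h | h
    · exact absurd ⟨k, ⟨h, hk⟩, hT⟩ h2
    · exact h

theorem CC_infinite (E : Enumeration) : (CC E).Infinite := by
  intro hfin
  let n := (CC E).ncard
  let h : ℕ → ℕ := fun k => if h : ∃ c, T E (k, c) ∧ ¬ T E (k, c + 1) then h.choose else 0
  have h1 : ∀ c, c ∉ CC E → ∃ k, 2 * k < c ∧ h k = c := by
    intro c hc
    simp only [CC, Set.mem_ofPred_eq] at hc
    push Not at hc
    obtain ⟨k, hk, hk1, hk2⟩ := hc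
    refine ⟨k, hk, ?_⟩
    have hex : ∃ c, T E (k, c) ∧ ¬ T E (k, c + 1) := ⟨c, hk1, hk2⟩
    simp only [h, dif_pos hex]
    exact T_uniq E hex.choose_spec.1 hex.choose_spec.2 hk1 hk2
  have h2 : Finset.range (2 * n + 1) ⊆ hfin.toFinset ∪ (Finset.range n).image h := by
    intro c hc
    rw [Finset.mem_range] at hc
    rw [Finset.mem_union, Set.Finite.mem_toFinset]
    by_cases hcc : c ∈ CC E
    · exact Or.inl hcc
    · right
      obtain ⟨k, hk, hk2⟩ := h1 c hcc
      rw [Finset.mem_image]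
      exact ⟨k, by rw [Finset.mem_range]; omega, hk2⟩
  have h3 := Finset.card_le_card h2
  rw [Finset.card_range] at h3
  have h4 := Finset.card_union_le hfin.toFinset ((Finset.range n).image h)
  have h5 : ((Finset.range n).image h).card ≤ n := by
    have := Finset.card_image_le (s := Finset.range n) (f := h)
    rwa [Finset.card_range] at this
  have h6 : hfin.toFinset.card = n := (Set.ncard_eq_toFinset_card _ hfin).symm
  omega

/-- The diagonal set. -/
def BB (E : Enumeration) : Set ℕ :=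
  {k | ¬ ∃ y ∈ Nat.Partrec.Code.eval (Denumerable.ofNat Nat.Partrec.Code k) k, y ∈ E.I (CC E)}

theorem BB_sigma3 (E : Enumeration) : Sigma3 (BB E) := by
  have hu : Primrec fun x : ℕ × ℕ => x.2.unpair := Primrec.unpair.comp Primrec.snd
  have hi : Primrec fun x : ℕ × ℕ => x.2.unpair.1 := Primrec.fst.comp hu
  have hv : Primrec fun x : ℕ × ℕ => x.2.unpair.2.unpair :=
    Primrec.unpair.comp (Primrec.snd.comp hu)
  have hc : Primrec fun x : ℕ × ℕ => x.2.unpair.2.unpair.1 := Primrec.fst.comp hv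
  have hk : Primrec fun x : ℕ × ℕ => x.2.unpair.2.unpair.2 := Primrec.snd.comp hv
  have hU : S2 fun x : ℕ × ℕ => x.2.unpair.1 = 0 ∨
      (x.2.unpair.1 = 1 ∧ T E (x.1, 2 * x.1 + 1)) ∨
      ((x.2.unpair.1 = 2 ∧ 2 * x.2.unpair.2.unpair.2 < x.2.unpair.2.unpair.1) ∧
        (T E (x.1, x.2.unpair.2.unpair.1) ∧
          T E (x.2.unpair.2.unpair.2, x.2.unpair.2.unpair.1))) := by
    refine S2.or (S2.of_prim ?_) (S2.or (S2.and (S2.of_prim ?_) ?_)
      (S2.and (S2.of_prim (PrimrecPred.and ?_ ?_)) (S2.and ?_ ?_)))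
    · exact Primrec.eq.comp hi (Primrec.const 0)
    · exact Primrec.eq.comp hi (Primrec.const 1)
    · exact (T_s2 E).comp (f := fun x : ℕ × ℕ => (x.1, 2 * x.1 + 1)) (Primrec.fst.pair
        (Primrec.succ.comp (Primrec.nat_mul.comp (Primrec.const 2) Primrec.fst)))
    · exact Primrec.eq.comp hi (Primrec.const 2)
    · exact Primrec.nat_lt.comp (Primrec.nat_mul.comp (Primrec.const 2) hk) hc
    · exact (T_s2 E).comp (Primrec.fst.pair hc)
    · exact (T_s2 E).comp (hk.pair hc)
  have hV : S2 fun x : ℕ × ℕ => (x.2.unpair.1 = 0 ∧ T E (x.1, 0)) ∨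
      (x.2.unpair.1 = 2 ∧ (T E (x.1, x.2.unpair.2.unpair.1 + 1) ∨
        T E (x.2.unpair.2.unpair.2, x.2.unpair.2.unpair.1 + 1))) := by
    refine S2.or (S2.and (S2.of_prim ?_) ?_) (S2.and (S2.of_prim ?_) (S2.or ?_ ?_))
    · exact Primrec.eq.comp hi (Primrec.const 0)
    · exact (T_s2 E).comp (f := fun x : ℕ × ℕ => (x.1, 0)) (Primrec.fst.pair (Primrec.const 0))
    · exact Primrec.eq.comp hi (Primrec.const 2)
    · exact (T_s2 E).comp (Primrec.fst.pair (Primrec.succ.comp hc))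
    · exact (T_s2 E).comp (hk.pair (Primrec.succ.comp hc))
  refine sigma3_of hU hV fun k => ?_
  constructor
  · intro hB
    by_cases hd : ∃ y, y ∈ Nat.Partrec.Code.eval (Denumerable.ofNat Nat.Partrec.Code k) k
    · obtain ⟨y, hy⟩ := hd
      have hyI : y ∉ E.I (CC E) := fun h => hB ⟨y, hy, h⟩
      by_cases hT : T E (k, 2 * k + 1)
      · refine ⟨Nat.pair 1 0, ?_, ?_⟩
        · simp only [Nat.unpair_pair]
          right
          left
          exact ⟨trivial, hT⟩
        · simp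
      · have hlt : (E.Q y).encard < ((2 * k + 1 : ℕ) : ℕ∞) := by
          by_contra hn
          exact hT ⟨y, hy, not_lt.1 hn⟩
        have hfin : (E.Q y).Finite := by
          rw [← Set.encard_ne_top_iff]
          intro h
          rw [h] at hlt
          exact not_top_lt hlt
        have hcC : (E.Q y).ncard ∉ CC E := fun h => hyI ⟨hfin, h⟩
        simp only [CC, Set.mem_ofPred_eq] at hcC
        push Not at hcC
        obtain ⟨k', hk', hk1, hk2⟩ := hcC
        refine ⟨Nat.pair 2 (Nat.pair (E.Q y).ncard k'), ?_, ?_⟩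
        · simp only [Nat.unpair_pair]
          right
          right
          refine ⟨⟨trivial, hk'⟩, ⟨y, hy, ?_⟩, hk1⟩
          rw [← hfin.cast_ncard_eq]
        · simp only [Nat.unpair_pair]
          rintro (⟨h, -⟩ | ⟨-, h | h⟩)
          · cases h
          · obtain ⟨y', hy', h⟩ := h
            have : y' = y := Part.mem_unique hy' hy
            subst this
            change (((E.Q y').ncard + 1 : ℕ) : ℕ∞) ≤ (E.Q y').encard at h
            rw [← hfin.cast_ncard_eq, Nat.cast_le] at h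
            omega
          · exact hk2 h
    · refine ⟨Nat.pair 0 0, ?_, ?_⟩
      · left
        simp
      · simp only [Nat.unpair_pair]
        rintro (⟨-, h⟩ | ⟨h, -⟩)
        · obtain ⟨y, hy, -⟩ := h
          exact hd ⟨y, hy⟩
        · cases h
  · rintro ⟨t, h1, h2⟩ ⟨y, hy, hfin, hyC⟩
    have hT : ∀ c, T E (k, c) ↔ c ≤ (E.Q y).ncard := by
      intro c
      constructor
      · rintro ⟨y', hy', h⟩
        have : y' = y := Part.mem_unique hy' hy
        subst this
        change (c : ℕ∞) ≤ (E.Q y').encard at h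
        rw [← hfin.cast_ncard_eq, Nat.cast_le] at h
        exact h
      · intro h
        refine ⟨y, hy, ?_⟩
        change (c : ℕ∞) ≤ (E.Q y).encard
        rw [← hfin.cast_ncard_eq, Nat.cast_le]
        exact h
    simp only at h1 h2
    rcases h1 with h1 | h1 | h1
    · refine h2 (Or.inl ⟨h1, ?_⟩)
      rw [hT]
      omega
    · have h3 : 2 * k + 1 ≤ (E.Q y).ncard := (hT _).1 h1.2
      have h4 := hyC k (by omega) ((hT _).2 le_rfl)
      rw [hT] at h4
      omega
    · obtain ⟨⟨h3, h4⟩, h5, h6⟩ := h1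
      have h7 : ¬ T E (k, t.unpair.2.unpair.1 + 1) := fun h => h2 (Or.inr ⟨h3, Or.inl h⟩)
      have h8 : ¬ T E (t.unpair.2.unpair.2, t.unpair.2.unpair.1 + 1) :=
        fun h => h2 (Or.inr ⟨h3, Or.inr h⟩)
      have h9 : t.unpair.2.unpair.1 = (E.Q y).ncard := by
        rw [hT] at h5 h7
        omega
      rw [h9] at h4 h6 h8
      exact h8 (hyC _ h4 h6)

theorem not_complete (E : Enumeration) :
    ∃ C : Set ℕ, C.Infinite ∧ Sigma3 C ∧ Sigma3 Cᶜ ∧ ¬ Complete Sigma3 (E.I C) := by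
  refine ⟨CC E, CC_infinite E, CC_sigma3 E, CC_compl E, fun h => ?_⟩
  obtain ⟨g, hg, hg2⟩ := h.2 (BB E) (BB_sigma3 E)
  obtain ⟨c, hc⟩ := Nat.Partrec.Code.exists_code.1 hg
  have h1 : Nat.Partrec.Code.eval (Denumerable.ofNat Nat.Partrec.Code (encode c)) (encode c) =
      Part.some (g (encode c)) := by
    rw [Denumerable.ofNat_encode, hc]
    simp
  have h2 := hg2 (encode c)
  have h3 : encode c ∈ BB E ↔ ¬ g (encode c) ∈ E.I (CC E) := by
    change (¬ ∃ y ∈ Nat.Partrec.Code.eval _ _, y ∈ E.I (CC E)) ↔ _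
    rw [h1]
    simp
  tauto

end Pool.Agent.Q116.IC
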