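import Pool.Agent.Q116.IC.Base

/-!
The complexity of the cardinality of `P_e ∩ 2^ω`.
-/

set_option autoImplicit false

namespace Pool.Agent.Q116.IC

open Encodable

theorem two_pow_prim : Primrec fun k : ℕ => 2 ^ k := by
  have h : Primrec (Nat.rec (motive := fun _ => ℕ) 1 fun _ y => y * 2) :=
    Primrec.nat_rec₁ 1 (Primrec.nat_mul.comp₂ Primrec₂.right (Primrec₂.const 2))
  refine h.of_eq fun k => ?_
  induction k with
  | zero => rfl
  | succ k ih => rw [pow_succ, ← ih]

theorem bit_prim : Primrec₂ fun m k : ℕ => (m.testBit k).toNat := by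
  have h : Primrec₂ fun m k : ℕ => m / 2 ^ k % 2 :=
    (Primrec.nat_mod.comp (Primrec.nat_div.comp Primrec.fst (two_pow_prim.comp Primrec.snd))
      (Primrec.const 2)).to₂
  refine h.of_eq fun m k => ?_
  rw [Nat.testBit_eq_decide_div_mod_eq]
  have := Nat.mod_two_eq_zero_or_one (m / 2 ^ k)
  rcases this with h | h <;> simp [h]

theorem ini_bit_prim : Primrec₂ fun m n : ℕ => ini m.testBit n := by
  unfold ini
  exact Primrec.list_map (Primrec.list_range.comp Primrec.snd)
    (bit_prim.comp₂ (Primrec.fst.comp Primrec.fst).to₂ Primrec.snd.to₂)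

/-- A code of the initial segment of `x`. -/
def cd (x : ℕ → Bool) (n : ℕ) : ℕ := Nat.ofBits fun i : Fin n => x i

theorem cd_lt (x : ℕ → Bool) (n : ℕ) : cd x n < 2 ^ n := Nat.ofBits_lt_two_pow _

theorem cd_bit (x : ℕ → Bool) {n k : ℕ} (h : k < n) : (cd x n).testBit k = x k :=
  Nat.testBit_ofBits_lt _ _ h

theorem ini_cd (x : ℕ → Bool) {n l : ℕ} (h : l ≤ n) : ini (cd x n).testBit l = ini x l :=
  ini_eq.2 fun _ hk => cd_bit x (hk.trans_le h)

theorem isClosed_of_ini {A : Set (ℕ → Bool)} (n : ℕ)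
    (h : ∀ x y, (∀ k < n, x k = y k) → x ∈ A → y ∈ A) : IsClosed A := by
  let r : (ℕ → Bool) → (Fin n → Bool) := fun x i => x i
  have hr : Continuous r := continuous_pi fun i => continuous_apply (i : ℕ)
  have hA : A = r ⁻¹' (r '' A) := by
    refine Set.Subset.antisymm (Set.subset_preimage_image _ _) ?_
    rintro y ⟨x, hx, hxy⟩
    refine h x y (fun k hk => ?_) hx
    exact congrFun hxy ⟨k, hk⟩
  rw [hA]
  exact (isClosed_discrete _).preimage hr

/-- The string with the code `u` of length `l` has an extension of length `l + N` all of whose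
initial segments are alive at the stage `N`. -/
def K (P : ℕ × List ℕ → ℕ → Prop) (e l u N : ℕ) : Prop :=
  ∃ m < 2 ^ (l + N), ini m.testBit l = ini u.testBit l ∧ ∀ i < l + N + 1, P (e, ini m.testBit i) N

theorem K_prim {P : ℕ × List ℕ → ℕ → Prop}
    (hP : PrimrecPred fun q : (ℕ × List ℕ) × ℕ => P q.1 q.2) :
    PrimrecPred fun q : ℕ × ℕ × ℕ × ℕ => K P q.1 q.2.1 q.2.2.1 q.2.2.2 := by
  unfold K
  -- the innermost predicate, in `(i, m, e, l, u, N)`
  have h1 : PrimrecRel fun (i : ℕ) (q : ℕ × ℕ × ℕ × ℕ × ℕ) =>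
      P (q.2.1, ini q.1.testBit i) q.2.2.2.2 := by
    refine hP.comp (((Primrec.fst.comp (Primrec.snd.comp Primrec.snd)).pair
      (ini_bit_prim.comp (Primrec.fst.comp Primrec.snd) Primrec.fst)).pair ?_)
    exact Primrec.snd.comp (Primrec.snd.comp (Primrec.snd.comp (Primrec.snd.comp Primrec.snd)))
  have h2 : PrimrecPred fun q : ℕ × ℕ × ℕ × ℕ × ℕ =>
      ∀ i ∈ List.range (q.2.2.1 + q.2.2.2.2 + 1), P (q.2.1, ini q.1.testBit i) q.2.2.2.2 := by
    refine (h1.forall_mem_list).comp (Primrec.list_range.comp (Primrec.succ.comp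
      (Primrec.nat_add.comp ?_ ?_))) Primrec.id
    · exact Primrec.fst.comp (Primrec.snd.comp Primrec.snd)
    · exact Primrec.snd.comp (Primrec.snd.comp (Primrec.snd.comp Primrec.snd))
  have h3 : PrimrecRel fun (m : ℕ) (q : ℕ × ℕ × ℕ × ℕ) =>
      ini m.testBit q.2.1 = ini q.2.2.1.testBit q.2.1 ∧
        ∀ i ∈ List.range (q.2.1 + q.2.2.2 + 1), P (q.1, ini m.testBit i) q.2.2.2 := by
    refine PrimrecPred.and (Primrec.eq.comp (ini_bit_prim.comp Primrec.fst ?_)
      (ini_bit_prim.comp ?_ ?_)) h2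
    · exact Primrec.fst.comp (Primrec.snd.comp Primrec.snd)
    · exact Primrec.fst.comp (Primrec.snd.comp (Primrec.snd.comp Primrec.snd))
    · exact Primrec.fst.comp (Primrec.snd.comp Primrec.snd)
  refine (h3.exists_mem_list.comp (Primrec.list_range.comp (two_pow_prim.comp
    (Primrec.nat_add.comp (Primrec.fst.comp Primrec.snd)
      (Primrec.snd.comp (Primrec.snd.comp Primrec.snd))))) Primrec.id).of_eq fun q => ?_
  simp only [List.mem_range, id]

variable {P : ℕ × List ℕ → ℕ → Prop}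

theorem K_anti (hmono : ∀ x L L', L ≤ L' → P x L' → P x L) {e l u N : ℕ}
    (h : K P e l u (N + 1)) : K P e l u N := by
  obtain ⟨m, -, h1, h2⟩ := h
  refine ⟨cd m.testBit (l + N), cd_lt _ _, ?_, fun i hi => ?_⟩
  · rw [ini_cd _ (by omega), h1]
  · rw [ini_cd _ (by omega)]
    exact hmono _ _ _ (Nat.le_succ N) (h2 i (by omega))

theorem K_anti' (hmono : ∀ x L L', L ≤ L' → P x L' → P x L) {e l u N N' : ℕ} (hN : N ≤ N')
    (h : K P e l u N') : K P e l u N := by
  induction N', hN using Nat.le_induction with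
  | base => exact h
  | succ N' _ ih => exact ih (K_anti hmono h)

/-- Extendible strings have extensions in the class. -/
theorem exists_path (E : Enumeration) (hmono : ∀ x L L', L ≤ L' → P x L' → P x L)
    (hP : ∀ e σ, (E.π e σ = true) ↔ ∀ L, P (e, σ) L) {e l u : ℕ} (h : ∀ N, K P e l u N) :
    ∃ x ∈ E.Q e, ini x l = ini u.testBit l := by
  let F : ℕ → Set (ℕ → Bool) := fun N =>
    {x | ini x l = ini u.testBit l ∧ ∀ i < l + N + 1, P (e, ini x i) N}
  have h1 : (⋂ N, F N).Nonempty := by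
    have hc : ∀ N, IsClosed (F N) := fun N => by
      refine isClosed_of_ini (l + N) fun x y hxy hx => ?_
      refine ⟨?_, fun i hi => ?_⟩
      · rw [← hx.1]
        exact ini_eq.2 fun k hk => (hxy k (by omega)).symm
      · have : ini y i = ini x i := ini_eq.2 fun k hk => (hxy k (by omega)).symm
        rw [this]
        exact hx.2 i hi
    refine IsCompact.nonempty_iInter_of_sequence_nonempty_isCompact_isClosed F (fun N x hx => ?_)
      (fun N => ?_) (hc 0).isCompact hc
    · exact ⟨hx.1, fun i hi => hmono _ _ _ (Nat.le_succ N) (hx.2 i (by omega))⟩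
    · obtain ⟨m, -, h2, h3⟩ := h N
      exact ⟨m.testBit, h2, h3⟩
  obtain ⟨x, hx⟩ := h1
  rw [Set.mem_iInter] at hx
  refine ⟨x, fun i => ?_, (hx 0).1⟩
  rw [hP]
  intro L
  exact hmono _ _ _ (le_max_right i L) ((hx (max i L)).2 i (by omega))

theorem K_of_path (E : Enumeration) (hP : ∀ e σ, (E.π e σ = true) ↔ ∀ L, P (e, σ) L) {e l : ℕ}
    {x : ℕ → Bool} (hx : x ∈ E.Q e) (N : ℕ) : K P e l (cd x l) N := by
  refine ⟨cd x (l + N), cd_lt _ _, ?_, fun i hi => ?_⟩
  · rw [ini_cd _ (by omega), ini_cd _ le_rfl]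
  · rw [ini_cd _ (by omega)]
    exact (hP e _).1 (hx i) N

/-- For a finite set of sequences there is a length at which they are different. -/
theorem separate (F : Finset (ℕ → Bool)) : ∃ l, Set.InjOn (fun x => cd x l) F := by
  classical
  induction F using Finset.induction_on with
  | empty => exact ⟨0, by simp⟩
  | insert x F hx ih =>
    obtain ⟨l, hl⟩ := ih
    have h1 : ∀ y ∈ F, ∃ k, x k ≠ y k := by
      intro y hy
      by_contra hc
      push Not at hc
      exact hx (by rwa [funext hc])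
    have h2 : ∃ M, ∀ y ∈ F, ∃ k < M, x k ≠ y k := by
      choose! k hk using h1
      exact ⟨F.sup k + 1, fun y hy => ⟨k y, Nat.lt_succ_of_le (Finset.le_sup hy), hk y hy⟩⟩
    obtain ⟨M, hM⟩ := h2
    have hinj : ∀ y z : ℕ → Bool, cd y (max l M) = cd z (max l M) → ∀ k < max l M, y k = z k := by
      intro y z h k hk
      rw [← cd_bit y hk, h, cd_bit z hk]
    refine ⟨max l M, ?_⟩
    intro y hy z hz hyz
    have h3 := hinj y z hyz
    rw [Finset.coe_insert, Set.mem_insert_iff] at hy hz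
    rcases hy with rfl | hy <;> rcases hz with rfl | hz
    · rfl
    · obtain ⟨k, hk, hk2⟩ := hM z hz
      exact absurd (h3 k (lt_max_of_lt_right hk)) hk2
    · obtain ⟨k, hk, hk2⟩ := hM y hy
      exact absurd (h3 k (lt_max_of_lt_right hk)).symm hk2
    · refine hl hy hz ?_
      change cd y l = cd z l
      unfold cd
      congr 1
      funext i
      exact h3 i (lt_max_of_lt_left i.2)

/-- The class has at least `j` members. -/
theorem le_encard_iff (E : Enumeration) (hmono : ∀ x L L', L ≤ L' → P x L' → P x L)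
    (hP : ∀ e σ, (E.π e σ = true) ↔ ∀ L, P (e, σ) L) (e j : ℕ) :
    (j : ℕ∞) ≤ (E.Q e).encard ↔ ∃ W : List ℕ, ∃ l, W.length = j ∧ W.Nodup ∧ (∀ u ∈ W, u < 2 ^ l) ∧
      ∀ N, ∀ u ∈ W, K P e l u N := by
  classical
  constructor
  · intro h
    obtain ⟨F, hF, hj⟩ := Set.exists_subset_encard_eq h
    have hfin : F.Finite := by
      rw [← Set.encard_ne_top_iff, hj]
      exact ENat.natCast_ne_top j
    obtain ⟨l, hl⟩ := separate hfin.toFinset
    refine ⟨(hfin.toFinset.image fun x => cd x l).toList, l, ?_, Finset.nodup_toList _, ?_, ?_⟩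
    · rw [Finset.length_toList, Finset.card_image_of_injOn hl]
      rw [hfin.encard_eq_coe_toFinset_card] at hj
      exact_mod_cast hj
    · intro u hu
      rw [Finset.mem_toList, Finset.mem_image] at hu
      obtain ⟨x, -, rfl⟩ := hu
      exact cd_lt x l
    · intro N u hu
      rw [Finset.mem_toList, Finset.mem_image] at hu
      obtain ⟨x, hx, rfl⟩ := hu
      exact K_of_path E hP (hF (by simpa using hx)) N
  · rintro ⟨W, l, hW, hnd, hlt, hK⟩
    have h1 : ∀ u ∈ W, ∃ x ∈ E.Q e, ini x l = ini u.testBit l := fun u hu =>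
      exists_path E hmono hP fun N => hK N u hu
    choose! g hg1 hg2 using h1
    have hinj : Set.InjOn g (W.toFinset : Set ℕ) := by
      intro u hu v hv huv
      rw [Finset.mem_coe, List.mem_toFinset] at hu hv
      have h2 : ini u.testBit l = ini v.testBit l := by rw [← hg2 u hu, ← hg2 v hv, huv]
      refine Nat.eq_of_testBit_eq fun i => ?_
      by_cases hi : i < l
      · exact ini_eq.1 h2 i hi
      · rw [Nat.testBit_lt_two_pow ((hlt u hu).trans_le (Nat.pow_le_pow_right (by norm_num)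
          (not_lt.1 hi))), Nat.testBit_lt_two_pow ((hlt v hv).trans_le
          (Nat.pow_le_pow_right (by norm_num) (not_lt.1 hi)))]
    have h3 : (g '' (W.toFinset : Set ℕ)).encard = j := by
      rw [hinj.encard_image, Set.encard_coe_eq_coe_finsetCard, List.toFinset_card_of_nodup hnd, hW]
    rw [← h3]
    refine Set.encard_le_encard ?_
    rintro _ ⟨u, hu, rfl⟩
    exact hg1 u (by simpa using hu)

/-- Distinctness of the entries of a list. -/
theorem nodup_prim : PrimrecPred fun W : List ℕ => W.Nodup := by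
  have h1 : PrimrecRel fun (i : ℕ) (q : ℕ × List ℕ) =>
      q.2.getD i 0 = q.2.getD q.1 0 → i = q.1 := by
    have hne : PrimrecRel fun (i : ℕ) (q : ℕ × List ℕ) => ¬ q.2.getD i 0 = q.2.getD q.1 0 :=
      PrimrecPred.not (Primrec.eq.comp
        ((Primrec.list_getD 0).comp (Primrec.snd.comp Primrec.snd) Primrec.fst)
        ((Primrec.list_getD 0).comp (Primrec.snd.comp Primrec.snd)
          (Primrec.fst.comp Primrec.snd)))
    refine (PrimrecPred.or hne (Primrec.eq.comp Primrec.fst
      (Primrec.fst.comp Primrec.snd))).of_eq fun q => ?_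
    tauto
  have h2 : PrimrecRel fun (k : ℕ) (W : List ℕ) =>
      ∀ i ∈ List.range W.length, W.getD i 0 = W.getD k 0 → i = k :=
    (h1.forall_mem_list.comp (Primrec.list_range.comp (Primrec.list_length.comp Primrec.snd))
      Primrec.id)
  refine (h2.forall_mem_list.comp (Primrec.list_range.comp Primrec.list_length)
    Primrec.id).of_eq fun W => ?_
  simp only [List.mem_range, id]
  rw [List.nodup_iff_injective_get]
  constructor
  · intro h a b hab
    have := h b b.2 a a.2 (by
      rw [List.getD_eq_getElem _ _ a.2, List.getD_eq_getElem _ _ b.2]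
      exact hab)
    exact Fin.ext this
  · intro h k hk i hi hik
    rw [List.getD_eq_getElem _ _ hi, List.getD_eq_getElem _ _ hk] at hik
    have := @h ⟨i, hi⟩ ⟨k, hk⟩ hik
    exact congrArg Fin.val this

/-- `The class has at least j members` is a uniform `Σ⁰₂` predicate. -/
theorem ge_s2 (E : Enumeration) : S2 fun x : ℕ × ℕ => (x.2 : ℕ∞) ≤ (E.Q x.1).encard := by
  obtain ⟨P, h1, h2, h3⟩ := pi_form (fun (y : ℕ × List ℕ) (_ : ℕ) => E.π y.1 y.2 = true) (by
    refine ComputablePred.computable_iff.2 ⟨fun q => E.π q.1.1 q.1.2, ?_, rfl⟩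
    exact E.comp.comp (Computable.fst.comp Computable.fst) (Computable.snd.comp Computable.fst))
  have hP : ∀ e σ, (E.π e σ = true) ↔ ∀ L, P (e, σ) L := fun e σ => by
    rw [← h3 (e, σ)]
    exact ⟨fun h _ => h, fun h => h 0⟩
  -- the matrix in `(e, j)`, `a = (W, l)`, `N`
  refine ⟨fun x a N => ((decode a.unpair.1 : Option (List ℕ)).getD []).length = x.2 ∧
    ((decode a.unpair.1 : Option (List ℕ)).getD []).Nodup ∧
    (∀ u ∈ ((decode a.unpair.1 : Option (List ℕ)).getD []), u < 2 ^ a.unpair.2) ∧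
    ∀ u ∈ ((decode a.unpair.1 : Option (List ℕ)).getD []), K P x.1 a.unpair.2 u N, ?_,
    fun x a L L' hL h => ⟨h.1, h.2.1, h.2.2.1, fun u hu => K_anti' h2 hL (h.2.2.2 u hu)⟩,
    fun x => ?_⟩
  · have ha : Primrec fun q : (ℕ × ℕ) × ℕ × ℕ => q.2.1.unpair :=
      Primrec.unpair.comp (Primrec.fst.comp Primrec.snd)
    have hl : Primrec fun q : (ℕ × ℕ) × ℕ × ℕ => q.2.1.unpair.2 := Primrec.snd.comp ha
    have hW : Primrec fun q : (ℕ × ℕ) × ℕ × ℕ =>
        ((decode q.2.1.unpair.1 : Option (List ℕ)).getD []) :=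
      Primrec.option_getD.comp (Primrec.decode.comp (Primrec.fst.comp ha)) (Primrec.const [])
    refine PrimrecPred.and (Primrec.eq.comp (Primrec.list_length.comp hW)
      (Primrec.snd.comp Primrec.fst)) (PrimrecPred.and (nodup_prim.comp hW)
        (PrimrecPred.and ?_ ?_))
    · have h4 : PrimrecRel fun (u l : ℕ) => u < 2 ^ l :=
        Primrec.nat_lt.comp Primrec.fst (two_pow_prim.comp Primrec.snd)
      exact h4.forall_mem_list.comp hW hl
    · have h5 : PrimrecRel fun (u : ℕ) (q : ℕ × ℕ × ℕ) => K P q.1 q.2.1 u q.2.2 :=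
        (K_prim h1).comp ((Primrec.fst.comp Primrec.snd).pair
          ((Primrec.fst.comp (Primrec.snd.comp Primrec.snd)).pair
            (Primrec.fst.pair (Primrec.snd.comp (Primrec.snd.comp Primrec.snd)))))
      have h6 : Primrec fun q : (ℕ × ℕ) × ℕ × ℕ => (q.1.1, q.2.1.unpair.2, q.2.2) :=
        (Primrec.fst.comp Primrec.fst).pair (hl.pair (Primrec.snd.comp Primrec.snd))
      exact h5.forall_mem_list.comp hW h6
  · refine (le_encard_iff E h2 hP x.1 x.2).trans ?_
    constructor
    · rintro ⟨W, l, h4, h5, h6, h7⟩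
      refine ⟨Nat.pair (encode W) l, fun N => ?_⟩
      simp only [Nat.unpair_pair, encodek, Option.getD_some]
      exact ⟨h4, h5, h6, h7 N⟩
    · rintro ⟨a, ha⟩
      exact ⟨_, _, (ha 0).1, (ha 0).2.1, (ha 0).2.2.1, fun N => (ha N).2.2.2⟩

/-- Emptiness is a `Σ⁰₁` property. -/
theorem empty_sigma (E : Enumeration) : ∃ R : ℕ → ℕ → Prop,
    PrimrecPred (fun q : ℕ × ℕ => R q.1 q.2) ∧ ∀ e, E.Q e = ∅ ↔ ∃ a, R e a := by
  obtain ⟨P, h1, h2, h3⟩ := pi_form (fun (y : ℕ × List ℕ) (_ : ℕ) => E.π y.1 y.2 = true) (by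
    refine ComputablePred.computable_iff.2 ⟨fun q => E.π q.1.1 q.1.2, ?_, rfl⟩
    exact E.comp.comp (Computable.fst.comp Computable.fst) (Computable.snd.comp Computable.fst))
  have hP : ∀ e σ, (E.π e σ = true) ↔ ∀ L, P (e, σ) L := fun e σ => by
    rw [← h3 (e, σ)]
    exact ⟨fun h _ => h, fun h => h 0⟩
  refine ⟨fun e N => ¬ K P e 0 0 N, ?_, fun e => ?_⟩
  · exact PrimrecPred.not ((K_prim h1).comp (Primrec.fst.pair ((Primrec.const 0).pair
      ((Primrec.const 0).pair Primrec.snd))))
  · constructor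
    · intro h
      by_contra hc
      push Not at hc
      obtain ⟨x, hx, -⟩ := exists_path E h2 hP hc
      rw [h] at hx
      exact hx
    · rintro ⟨N, hN⟩
      rw [Set.eq_empty_iff_forall_notMem]
      intro x hx
      have := K_of_path E hP hx (l := 0) N
      have h0 : cd x 0 = 0 := by simp [cd]
      rw [h0] at this
      exact hN this

end Pool.Agent.Q116.IC
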